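import Pool.Agent.X316.EC.Code

/-! Fundamental groups of varieties which are connected by elliptic curves and other
non-hyperbolic curves. -/

set_option autoImplicit false

open Topology Set MvPolynomial

namespace Pool.Agent.X316.EC

open Pool.Agent.Y193.FG Pool.Agent.Y193.CS Pool.Agent.X325.HS Pool.Agent.X325.EC

/-- `x` and `x'` are in the image of one and the same elliptic curve under a regular map to `X` -/
def EllLinked {n : ℕ} (X : Set (CP n)) (x x' : CP n) : Prop :=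
  ∃ (e : Fin 3 → ℂ) (φ : Ell e → CP n), Function.Injective e ∧ IsRegularP (Ell e) φ ∧
    (∀ P, φ P ∈ X) ∧ x ∈ range φ ∧ x' ∈ range φ

section

theorem inj_dist {e : Fin 3 → ℂ} (h : Function.Injective e) : ∀ i j, i ≠ j → e i ≠ e j :=
  fun _ _ hij he => hij (h he)

theorem affine_of {e : Fin 3 → ℂ} (P : Ell e) (hP : P.1 ≠ CP.mk ![0, 1, 0] O_ne) :
    ∃ z : AY e, P = ⟨CP.mk ![z.1 0, z.1 1, 1] (T_ne0 _ _), AY_mem z.2⟩ := by
  obtain ⟨P, hPE⟩ := P
  obtain ⟨v, hv, rfl⟩ := mk_surj P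
  have hc := mem_Ell.mp hPE
  have hz : v 2 ≠ 0 := by
    intro hz
    obtain ⟨hy, hvy⟩ := inf_of ⟨v, hv, hc⟩ hz
    exact hP (mk_eq_mk.mpr ⟨v 1, hy, hvy⟩)
  have h2 := curve_of hc hz
  rw [← prod3] at h2
  refine ⟨⟨![v 0 / v 2, v 1 / v 2], h2⟩, Subtype.ext ?_⟩
  exact mk_eq_mk.mpr ⟨v 2, hz, aff_of hz⟩

/-- two points of an elliptic curve can be moved to its affine part -/
theorem ell_aff {n : ℕ} {X : Set (CP n)} {x x' : CP n} (h : EllLinked X x x') :
    ∃ (e : Fin 3 → ℂ) (φ : Ell e → CP n), (∀ i j, i ≠ j → e i ≠ e j) ∧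
      IsRegularP (Ell e) φ ∧ (∀ P, φ P ∈ X) ∧ ∃ z z' : AY e, resA φ z = x ∧ resA φ z' = x' := by
  obtain ⟨e, φ, he, hφ, hX, ⟨P, rfl⟩, ⟨P', rfl⟩⟩ := h
  have hd := inj_dist he
  by_cases hO : P.1 ≠ CP.mk ![0, 1, 0] O_ne ∧ P'.1 ≠ CP.mk ![0, 1, 0] O_ne
  · obtain ⟨z, hz⟩ := affine_of P hO.1
    obtain ⟨z', hz'⟩ := affine_of P' hO.2
    exact ⟨e, φ, hd, hφ, hX, z, z', congrArg φ hz.symm, congrArg φ hz'.symm⟩
  · -- the case of the first branch point
    have main : ∀ (e : Fin 3 → ℂ) (φ : Ell e → CP n) (P P' : Ell e), (∀ i j, i ≠ j → e i ≠ e j) →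
        IsRegularP (Ell e) φ → (∀ P, φ P ∈ X) → P.1 ≠ CP.mk ![e 0, 0, 1] (T_ne0 _ _) →
        P'.1 ≠ CP.mk ![e 0, 0, 1] (T_ne0 _ _) → ∃ (e : Fin 3 → ℂ) (ψ : Ell e → CP n),
          (∀ i j, i ≠ j → e i ≠ e j) ∧ IsRegularP (Ell e) ψ ∧ (∀ P, ψ P ∈ X) ∧
          ∃ z z' : AY e, resA ψ z = φ P ∧ resA ψ z' = φ P' := by
      intro e φ P P' hd hφ hX hP hP'
      obtain ⟨κ, hκ⟩ := exists_kap hd
      have hne : ∀ P : Ell e, P.1 ≠ CP.mk ![e 0, 0, 1] (T_ne0 _ _) →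
          (κ P).1 ≠ CP.mk ![0, 1, 0] O_ne := by
        intro P hP h
        apply hP
        have h1 : κ P = ⟨_, O_mem⟩ := Subtype.ext h
        have h2 := kap_kap hd hκ P
        rw [h1] at h2
        rw [← h2]
        exact kap_O hd hκ
      obtain ⟨z, hz⟩ := affine_of (κ P) (hne P hP)
      obtain ⟨z', hz'⟩ := affine_of (κ P') (hne P' hP')
      refine ⟨e, fun P => φ (κ P), hd, regular_kap hd hκ hφ, fun P => hX _, z, z', ?_, ?_⟩
      · show φ (κ ⟨_, _⟩) = φ P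
        rw [← hz, kap_kap hd hκ]
      · show φ (κ ⟨_, _⟩) = φ P'
        rw [← hz', kap_kap hd hκ]
    have hO0 : ∀ c : ℂ, CP.mk ![0, 1, 0] O_ne ≠ CP.mk ![c, 0, 1] (T_ne0 _ _) := by
      intro c h
      obtain ⟨a, ha, h1⟩ := mk_eq_mk.mp h
      have := congrFun h1 1
      simp at this
    have h01 : CP.mk ![e 0, 0, 1] (T_ne0 _ _) ≠ CP.mk ![e 1, 0, 1] (T_ne0 _ _) := by
      intro h
      obtain ⟨a, ha, h1⟩ := mk_eq_mk.mp h
      have h2 := congrFun h1 2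
      have h0 := congrFun h1 0
      simp at h0 h2
      rw [← h2, one_mul] at h0
      exact hd 0 1 (by decide) h0
    by_cases hT : P.1 ≠ CP.mk ![e 0, 0, 1] (T_ne0 _ _) ∧ P'.1 ≠ CP.mk ![e 0, 0, 1] (T_ne0 _ _)
    · exact main e φ P P' hd hφ hX hT.1 hT.2
    · -- the case of the second branch point
      let e' : Fin 3 → ℂ := e ∘ Equiv.swap 0 1
      have hE : Ell e = Ell e' := by
        have h1 : ∀ v : Fin 3 → ℂ, ∏ i, (v 0 - e' i * v 2) = ∏ i, (v 0 - e i * v 2) := fun v =>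
          Equiv.prod_comp (Equiv.swap 0 1) (fun i => v 0 - e i * v 2)
        unfold Ell
        simp only [h1]
      have he' : e' 0 = e 1 := by simp [e']
      have hd' : ∀ i j, i ≠ j → e' i ≠ e' j := fun i j hij h =>
        hij ((he.comp (Equiv.swap 0 1).injective) h)
      have hP1 : P.1 ≠ CP.mk ![e 1, 0, 1] (T_ne0 _ _) ∧ P'.1 ≠ CP.mk ![e 1, 0, 1] (T_ne0 _ _) := by
        rw [not_and_or, not_not, not_not] at hO hT
        rcases hO with hO | hO <;> rcases hT with hT | hT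
        · exact absurd (hO.symm.trans hT) (hO0 _)
        · rw [hO, hT]
          exact ⟨hO0 _, h01⟩
        · rw [hO, hT]
          exact ⟨h01, hO0 _⟩
        · exact absurd (hO.symm.trans hT) (hO0 _)
      have gen : ∀ (S : Set (CP 2)) (_ : Ell e = S), ∃ ψ : S → CP n, IsRegularP S ψ ∧
          (∀ P, ψ P ∈ X) ∧ ∃ Q Q' : S, Q.1 = P.1 ∧ Q'.1 = P'.1 ∧ ψ Q = φ P ∧ ψ Q' = φ P' := by
        rintro S rfl
        exact ⟨φ, hφ, hX, P, P', rfl, rfl, rfl, rfl⟩
      obtain ⟨ψ, h1, h2, Q, Q', h3, h4, h5, h6⟩ := gen _ hE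
      rw [← h5, ← h6]
      refine main e' ψ Q Q' hd' h1 h2 ?_ ?_
      · rw [h3]
        simp only [he']
        exact hP1.1
      · rw [h4]
        simp only [he']
        exact hP1.2

variable {n : ℕ} {ι κ : Type} [Fintype κ]
  {p : ι → MvPolynomial (Fin (n + 1)) ℂ} {q : κ → MvPolynomial (Fin (n + 1)) ℂ}
  {ρ : C(QA (PT p) (QT q), QP p q)}

theorem famLinked_of (hp : ∀ i, ∃ d, (p i).IsHomogeneous d) (hq : ∀ j, ∃ d, (q j).IsHomogeneous d)
    (hρ : ∀ (v η : Fin (n + 1) → ℂ) (hv : v ≠ 0) (h : outer v η ∈ QA (PT p) (QT q)),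
        ∑ i, v i * η i = 1 → (ρ ⟨outer v η, h⟩).1 = CP.mk v hv)
    {x x' : CP n} (h : EllLinked (QP p q) x x') :
    FamLinked (QP p q) (K := ℕ × ℕ × ℕ) (fun k => YS p q k.1 k.2.1 k.2.2)
      (fun k => CubPi (na n κ k.1 k.2.1)) (fun k => phS ρ) x x' := by
  obtain ⟨e, φ, hd, hφ, hX, z, z', rfl, rfl⟩ := ell_aff h
  obtain ⟨D, d, m, w, hOK, hpe, hw⟩ := exists_par hp hq hd hφ hX
  let Y : AY e → (Fin (na n κ D d + 2) → ℂ) := fun z =>
    cpt (fun j => w ((sg n κ D d).symm j)) (z.1 0, z.1 1)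
  have hwS : ∀ z, wS n κ D d (Y z) = w := by
    intro z
    funext j
    show cpt _ _ (Fin.castAdd 2 (sg n κ D d j)) = w j
    rw [cpt_left, Equiv.symm_apply_apply]
  have hx : ∀ z, Y z (Fin.natAdd _ 0) = z.1 0 := fun z => cpt_x _ _
  have hy : ∀ z, Y z (Fin.natAdd _ 1) = z.1 1 := fun z => cpt_y _ _
  have hYm : ∀ z, Y z ∈ YS p q D d m := by
    intro z
    refine mem_YS.mpr ⟨by rw [hwS]; exact hOK, ?_⟩
    rw [hwS, hx, hy, hpe]
    exact z.2
  have hval : ∀ z, (phS (m := m) ρ ⟨Y z, hYm z⟩).1 = resA φ z := by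
    intro z
    obtain ⟨v, η, hv, h1, h2, h3⟩ := hw z
    have h4 : MS (Y z) = outer v η := by
      rw [← h3]
      funext b
      unfold MS
      rw [hwS, hx, hy]
      congr 1
      funext i
      fin_cases i <;> rfl
    have hm := MS_mem (hYm z)
    have h5 : phS (m := m) ρ ⟨Y z, hYm z⟩ = ρ ⟨outer v η, by rw [← h4]; exact hm⟩ :=
      congrArg ρ (Subtype.ext h4)
    rw [h5, h1]
    exact hρ v η hv _ h2
  refine ⟨(D, d, m), ⟨Y z, hYm z⟩, ⟨Y z', hYm z'⟩, fun i => ?_, hval z, hval z'⟩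
  rw [eval_CubPi, eval_CubPi]
  have hL : ∀ z, Y z (Fin.castAdd 2 i) = w ((sg n κ D d).symm i) := fun z => cpt_left _ _ _
  exact (hL z').trans (hL z).symm

/-- **Elliptically connected varieties.** -/
theorem main_ell (hp : ∀ i, ∃ d, (p i).IsHomogeneous d)
    (hq : ∀ j, ∃ d, (q j).IsHomogeneous d) (hs : IsSmooth (QP p q)) (hc : IsConnected (QP p q))
    {x₀ : CP n} (hx₀ : x₀ ∈ QP p q)
    (hthin : ¬ IsThin (QP p q) {x | Relation.ReflTransGen
      (fun x x' => EllLinked (QP p q) x x' ∨ TorusLinked (QP p q) x x' ∨ EntLinked p q x x') x₀ x})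
    (x : QP p q) : Virtually Poly (FundamentalGroup (QP p q) x) := by
  obtain ⟨ρ, hρ⟩ := exists_rho hp hq
  refine main_families_mixed hp hq hs hc (K₀ := Empty) (r₀ := fun k => k.elim)
    (Y := fun k => k.elim) (fun k => k.elim) (fun k => k.elim)
    (K := ℕ × ℕ × ℕ) (𝒴 := fun k => YS p q k.1 k.2.1 k.2.2)
    (π := fun k => CubPi (na n κ k.1 k.2.1)) (φ := fun k => phS ρ)
    (fun k => isTest_YS hp hq hρ) poly_isExtClass
    poly_int (fun k => k.elim)
    (fun k => images_YS hp hq hρ) hx₀ (fun hthin' => hthin ?_) x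
  obtain ⟨G, h1, h2, h3⟩ := hthin'
  refine ⟨G, h1, h2, fun v hv hv' => h3 v hv ?_⟩
  have hmono : ∀ y, Relation.ReflTransGen
      (fun x x' => EllLinked (QP p q) x x' ∨ TorusLinked (QP p q) x x' ∨ EntLinked p q x x') x₀ y →
      Relation.ReflTransGen (fun x x' => MixedLinked p q (K := Empty) (r := fun k => k.elim)
        (fun k => k.elim) x x' ∨ FamLinked (QP p q) (fun k : ℕ × ℕ × ℕ => YS p q k.1 k.2.1 k.2.2)
        (fun k => CubPi (na n κ k.1 k.2.1)) (fun k => phS ρ) x x') x₀ y := by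
    intro y hy
    induction hy with
    | refl => exact Relation.ReflTransGen.refl
    | tail _ hab ih =>
      refine ih.tail ?_
      rcases hab with hab | hab | hab
      · exact Or.inr (famLinked_of hp hq hρ hab)
      · exact Or.inl (Or.inr (Or.inl hab))
      · exact Or.inl (Or.inl hab)
  exact hmono _ hv'

end

end Pool.Agent.X316.EC
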