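import Mathlib

/-! The third point of intersection of a line with a plane cubic: formulas. -/

set_option autoImplicit false

namespace Pool.Agent.X316.EC

section

variable (e : Fin 3 → ℂ)

/-- the cubic form -/
def cF (v : Fin 3 → ℂ) : ℂ := v 1 ^ 2 * v 2 -
  (v 0 - e 0 * v 2) * (v 0 - e 1 * v 2) * (v 0 - e 2 * v 2)

def s1 : ℂ := e 0 + e 1 + e 2
def s2 : ℂ := e 0 * e 1 + e 0 * e 2 + e 1 * e 2
def s3 : ℂ := e 0 * e 1 * e 2

/-- the derivative of the cubic form at `v` in the direction of `(x, y, 1)` -/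
def ca (v : Fin 3 → ℂ) (x y : ℂ) : ℂ :=
  (-3 * v 0 ^ 2 + 2 * s1 e * v 0 * v 2 - s2 e * v 2 ^ 2) * x + 2 * v 1 * v 2 * y +
    (v 1 ^ 2 + s1 e * v 0 ^ 2 - 2 * s2 e * v 0 * v 2 + 3 * s3 e * v 2 ^ 2)

/-- the derivative of the cubic form at `(x, y, 1)` in the direction of `v` -/
def cb (v : Fin 3 → ℂ) (x y : ℂ) : ℂ :=
  (-3 * x ^ 2 + 2 * s1 e * x - s2 e) * v 0 + 2 * y * v 1 +
    (y ^ 2 + s1 e * x ^ 2 - 2 * s2 e * x + 3 * s3 e) * v 2

/-- the third point on the line through `v` and `(x, y, 1)` -/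
def G1 (v : Fin 3 → ℂ) (x y : ℂ) : Fin 3 → ℂ :=
  ![cb e v x y * v 0 - ca e v x y * x, cb e v x y * v 1 - ca e v x y * y,
    cb e v x y * v 2 - ca e v x y]

/-- the third point in terms of the slope -/
def V3 (X Y Z x D N : ℂ) : Fin 3 → ℂ :=
  ![D * (Z * N ^ 2 + (s1 e * Z - X - x * Z) * D ^ 2),
    D ^ 3 * Y + N * (Z * N ^ 2 + (s1 e * Z - 2 * X - x * Z) * D ^ 2), Z * D ^ 3]

def cD (v : Fin 3 → ℂ) (y : ℂ) : ℂ := v 2 * (v 1 + y * v 2)

def cN (v : Fin 3 → ℂ) (x : ℂ) : ℂ := v 0 ^ 2 + v 0 * x * v 2 + x ^ 2 * v 2 ^ 2 -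
  s1 e * (v 0 + x * v 2) * v 2 + s2 e * v 2 ^ 2

def G2 (v : Fin 3 → ℂ) (x y : ℂ) : Fin 3 → ℂ :=
  V3 e (v 0) (v 1) (v 2) x (cD v y) (cN e v x)

theorem vec_ext {v w : Fin 3 → ℂ} (h0 : v 0 = w 0) (h1 : v 1 = w 1) (h2 : v 2 = w 2) : v = w := by
  funext i
  fin_cases i
  · exact h0
  · exact h1
  · exact h2

variable {e}

theorem G1_smul (c : ℂ) (v : Fin 3 → ℂ) (x y : ℂ) : G1 e (c • v) x y = c ^ 2 • G1 e v x y := by
  apply vec_ext <;> simp [G1, ca, cb] <;> ring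

theorem V3_smul (c X Y Z x D N : ℂ) : V3 e X Y Z x (c * D) (c * N) = c ^ 3 • V3 e X Y Z x D N := by
  apply vec_ext <;> simp [V3] <;> ring

theorem G2_smul (c : ℂ) (v : Fin 3 → ℂ) (x y : ℂ) : G2 e (c • v) x y = c ^ 7 • G2 e v x y := by
  apply vec_ext <;> simp [G2, V3, cD, cN] <;> ring

/-- the first formula in terms of the slope -/
theorem G1_aff {a b x y : ℂ} (h1 : b ^ 2 = (a - e 0) * (a - e 1) * (a - e 2))
    (h2 : y ^ 2 = (x - e 0) * (x - e 1) * (x - e 2)) :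
    G1 e ![a, b, 1] x y = V3 e a b 1 x (x - a) (y - b) := by
  apply vec_ext <;> simp [G1, V3, ca, cb, s1, s2, s3]
  · linear_combination (a - (x - a)) * h2 + (-x - (x - a)) * h1
  · linear_combination (2 * b - y) * h2 + (b - 2 * y) * h1
  · linear_combination h2 - h1

theorem cF_V3 {a b x y D N : ℂ} (h1 : b ^ 2 = (a - e 0) * (a - e 1) * (a - e 2))
    (r1 : N * (x - a) = D * (y - b))
    (r2 : N * (b + y) = D * (a ^ 2 + a * x + x ^ 2 - s1 e * (a + x) + s2 e)) :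
    cF e (V3 e a b 1 x D N) = 0 := by
  by_cases hD : D = 0
  · subst hD
    simp [cF, V3]
  · obtain ⟨l, rfl⟩ : ∃ l, N = D * l := ⟨N / D, by field_simp⟩
    have r1' : l * (x - a) = y - b := mul_left_cancel₀ hD (by linear_combination r1)
    have r2' : l * (b + y) = a ^ 2 + a * x + x ^ 2 - s1 e * (a + x) + s2 e :=
      mul_left_cancel₀ hD (by linear_combination r2)
    have h3 : (a ^ 2 + a * x + x ^ 2 - s1 e * (a + x) + s2 e) - l * (2 * b + l * (x - a)) = 0 := by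
      linear_combination -r2' - l * r1'
    simp only [cF, V3, Matrix.cons_val_zero, Matrix.cons_val_one, Matrix.cons_val]
    have h4 : (b + l * (l ^ 2 + s1 e - a - x - a)) ^ 2 -
        (l ^ 2 + s1 e - a - x - e 0) * (l ^ 2 + s1 e - a - x - e 1) *
          (l ^ 2 + s1 e - a - x - e 2) = 0 := by
      unfold s1 s2 at *
      linear_combination h1 - ((l ^ 2 + (e 0 + e 1 + e 2) - a - x) - a) * h3
    linear_combination D ^ 9 * h4

theorem cF_smul (c : ℂ) (v : Fin 3 → ℂ) : cF e (c • v) = c ^ 3 * cF e v := by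
  simp only [cF, Pi.smul_apply, smul_eq_mul]
  ring

theorem cF_G1 {v : Fin 3 → ℂ} {x y : ℂ} (hv : cF e v = 0)
    (h2 : y ^ 2 = (x - e 0) * (x - e 1) * (x - e 2)) : cF e (G1 e v x y) = 0 := by
  have key : ∀ l m : ℂ, cF e ![l * v 0 - m * x, l * v 1 - m * y, l * v 2 - m] =
      l ^ 3 * cF e v - l ^ 2 * m * ca e v x y + l * m ^ 2 * cb e v x y -
        m ^ 3 * (y ^ 2 - (x - e 0) * (x - e 1) * (x - e 2)) := by
    intro l m
    simp [cF, ca, cb, s1, s2, s3]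
    ring
  have h := key (cb e v x y) (ca e v x y)
  rw [hv, h2] at h
  unfold G1
  rw [h]
  ring

theorem aff_of {v : Fin 3 → ℂ} (hz : v 2 ≠ 0) : v = v 2 • ![v 0 / v 2, v 1 / v 2, 1] := by
  apply vec_ext <;> simp <;> field_simp

theorem curve_of {v : Fin 3 → ℂ} (hv : cF e v = 0) (hz : v 2 ≠ 0) :
    (v 1 / v 2) ^ 2 = (v 0 / v 2 - e 0) * (v 0 / v 2 - e 1) * (v 0 / v 2 - e 2) := by
  unfold cF at hv
  field_simp
  linear_combination hv

theorem G2_zero {v : Fin 3 → ℂ} {x y : ℂ} (hz : v 2 = 0) : G2 e v x y = 0 := by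
  apply vec_ext <;> simp [G2, V3, cD, hz]

theorem G2_aff (a b x y : ℂ) : G2 e ![a, b, 1] x y =
    V3 e a b 1 x (b + y) (a ^ 2 + a * x + x ^ 2 - s1 e * (a + x) + s2 e) := by
  simp [G2, cD, cN]

theorem cF_G2 {v : Fin 3 → ℂ} {x y : ℂ} (hv : cF e v = 0)
    (h2 : y ^ 2 = (x - e 0) * (x - e 1) * (x - e 2)) : cF e (G2 e v x y) = 0 := by
  by_cases hz : v 2 = 0
  · rw [G2_zero hz]
    simp [cF]
  · have h1 := curve_of hv hz
    rw [aff_of hz, G2_smul, cF_smul, G2_aff, cF_V3 (y := y) h1, mul_zero]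
    · unfold s1 s2
      linear_combination h1 - h2
    · ring

theorem V3_ne {a b x D N : ℂ} (h : V3 e a b 1 x D N = 0) : D = 0 ∧ N = 0 := by
  have h2 := congrFun h 2
  simp [V3] at h2
  subst h2
  have h1 := congrFun h 1
  simp [V3] at h1
  exact ⟨rfl, h1⟩

variable (hd : ∀ i j, i ≠ j → e i ≠ e j)

include hd in
theorem cover {v : Fin 3 → ℂ} {x y : ℂ} (h0 : v ≠ 0) (hv : cF e v = 0)
    (h2 : y ^ 2 = (x - e 0) * (x - e 1) * (x - e 2)) (h : G1 e v x y = 0) : G2 e v x y ≠ 0 := by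
  by_cases hz : v 2 = 0
  · exfalso
    have hx : v 0 = 0 := by
      unfold cF at hv
      rw [hz] at hv
      simpa using hv
    have hy : v 1 ≠ 0 := fun hy => h0 (vec_ext hx hy hz)
    have h3 := congrFun h 2
    simp [G1, ca, hx, hz] at h3
    exact hy h3
  · have h1 := curve_of hv hz
    rw [aff_of hz, G1_smul, G1_aff h1 h2] at h
    obtain ⟨hD, hN⟩ := V3_ne ((smul_eq_zero.mp h).resolve_left (pow_ne_zero _ hz))
    rw [aff_of hz, G2_smul]
    refine smul_ne_zero (pow_ne_zero _ hz) ?_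
    rw [G2_aff]
    intro h4
    obtain ⟨h5, h6⟩ := V3_ne h4
    have ha : v 0 / v 2 = x := (sub_eq_zero.mp hD).symm
    have hb : v 1 / v 2 = y := (sub_eq_zero.mp hN).symm
    rw [ha] at h6
    rw [hb] at h5
    have hy : y = 0 := by linear_combination h5 / 2
    have h7 : (x - e 0) * (x - e 1) * (x - e 2) = 0 := by rw [← h2, hy]; ring
    have h01 := sub_ne_zero.mpr (hd 0 1 (by decide))
    have h02 := sub_ne_zero.mpr (hd 0 2 (by decide))
    have h12 := sub_ne_zero.mpr (hd 1 2 (by decide))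
    unfold s1 s2 at h6
    rcases mul_eq_zero.mp h7 with h8 | h8
    · rcases mul_eq_zero.mp h8 with h8 | h8
      · have : (e 0 - e 1) * (e 0 - e 2) = 0 := by
          rw [sub_eq_zero.mp h8] at h6
          linear_combination h6
        exact (mul_ne_zero h01 h02) this
      · have : (e 0 - e 1) * (e 1 - e 2) = 0 := by
          rw [sub_eq_zero.mp h8] at h6
          linear_combination -h6
        exact (mul_ne_zero h01 h12) this
    · have : (e 0 - e 2) * (e 1 - e 2) = 0 := by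
        rw [sub_eq_zero.mp h8] at h6
        linear_combination h6
      exact (mul_ne_zero h02 h12) this

theorem prop_G {v : Fin 3 → ℂ} {x y : ℂ} (hv : cF e v = 0)
    (h2 : y ^ 2 = (x - e 0) * (x - e 1) * (x - e 2)) (hG1 : G1 e v x y ≠ 0)
    (hG2 : G2 e v x y ≠ 0) : ∃ c : ℂ, c ≠ 0 ∧ G2 e v x y = c • G1 e v x y := by
  have hz : v 2 ≠ 0 := fun hz => hG2 (G2_zero hz)
  have h1 := curve_of hv hz
  rw [aff_of hz, G1_smul, G1_aff h1 h2] at hG1
  rw [aff_of hz, G2_smul, G2_aff] at hG2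
  rw [aff_of hz, G1_smul, G2_smul, G2_aff, G1_aff h1 h2]
  set a := v 0 / v 2
  set b := v 1 / v 2
  have h3 : (y - b) * (b + y) = (x - a) * (a ^ 2 + a * x + x ^ 2 - s1 e * (a + x) + s2 e) := by
    unfold s1 s2
    linear_combination h2 - h1
  set N := a ^ 2 + a * x + x ^ 2 - s1 e * (a + x) + s2 e
  obtain ⟨c, hc, hc1, hc2⟩ : ∃ c : ℂ, c ≠ 0 ∧ b + y = c * (x - a) ∧ N = c * (y - b) := by
    have hne : b + y ≠ 0 ∨ N ≠ 0 := by
      by_contra hcon
      push Not at hcon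
      apply hG2
      rw [hcon.1, hcon.2]
      simp [V3]
    by_cases hx : x - a = 0
    · have hy : y - b ≠ 0 := by
        intro hy
        apply hG1
        rw [hx, hy]
        simp [V3]
      have h4 : b + y = 0 := by
        rw [hx, zero_mul] at h3
        exact (mul_eq_zero.mp h3).resolve_left hy
      refine ⟨N / (y - b), div_ne_zero (hne.resolve_left (not_not.mpr h4)) hy, ?_, ?_⟩
      · rw [hx, h4, mul_zero]
      · field_simp
    · have h5 : N = (b + y) / (x - a) * (y - b) := by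
        field_simp
        linear_combination -h3
      refine ⟨(b + y) / (x - a), ?_, by field_simp, h5⟩
      intro h6
      rw [h6, zero_mul] at h5
      rw [div_eq_zero_iff] at h6
      exact hne.elim (fun h => h (h6.resolve_right hx)) (fun h => h h5)
  rw [hc1, hc2, V3_smul]
  refine ⟨v 2 ^ 5 * c ^ 3, mul_ne_zero (pow_ne_zero _ hz) (pow_ne_zero _ hc), ?_⟩
  rw [smul_smul, smul_smul]
  congr 1
  ring

open Classical in
/-- the third point of intersection -/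
noncomputable def TT3 (e : Fin 3 → ℂ) (v : Fin 3 → ℂ) (x y : ℂ) : Fin 3 → ℂ :=
  if G1 e v x y ≠ 0 then G1 e v x y else G2 e v x y

include hd in
theorem T_ne {v : Fin 3 → ℂ} {x y : ℂ} (h0 : v ≠ 0) (hv : cF e v = 0)
    (h2 : y ^ 2 = (x - e 0) * (x - e 1) * (x - e 2)) : TT3 e v x y ≠ 0 := by
  unfold TT3
  split_ifs with h
  · exact h
  · exact cover hd h0 hv h2 (not_not.mp h)

theorem cF_T {v : Fin 3 → ℂ} {x y : ℂ} (hv : cF e v = 0)
    (h2 : y ^ 2 = (x - e 0) * (x - e 1) * (x - e 2)) : cF e (TT3 e v x y) = 0 := by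
  unfold TT3
  split_ifs with h
  · exact cF_G1 hv h2
  · exact cF_G2 hv h2

theorem T_G1 {v : Fin 3 → ℂ} {x y : ℂ} (h : G1 e v x y ≠ 0) : TT3 e v x y = G1 e v x y := by
  unfold TT3
  rw [if_pos h]

theorem T_G2 {v : Fin 3 → ℂ} {x y : ℂ} (hv : cF e v = 0)
    (h2 : y ^ 2 = (x - e 0) * (x - e 1) * (x - e 2)) (h : G2 e v x y ≠ 0) :
    ∃ c : ℂ, c ≠ 0 ∧ G2 e v x y = c • TT3 e v x y := by
  by_cases hG : G1 e v x y = 0
  · refine ⟨1, one_ne_zero, ?_⟩
    unfold TT3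
    rw [if_neg (not_not.mpr hG), one_smul]
  · rw [T_G1 hG]
    exact prop_G hv h2 hG h

theorem T_smul {c : ℂ} (hc : c ≠ 0) (v : Fin 3 → ℂ) (x y : ℂ) :
    ∃ d : ℂ, d ≠ 0 ∧ TT3 e (c • v) x y = d • TT3 e v x y := by
  unfold TT3
  rw [G1_smul, G2_smul]
  by_cases h : G1 e v x y = 0
  · rw [h, smul_zero, if_neg (by simp), if_neg (by simp)]
    exact ⟨c ^ 7, pow_ne_zero _ hc, rfl⟩
  · rw [if_pos (smul_ne_zero (pow_ne_zero _ hc) h), if_pos h]
    exact ⟨c ^ 2, pow_ne_zero _ hc, rfl⟩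

theorem G1_G1 {v : Fin 3 → ℂ} {x y : ℂ} 
    (h2 : y ^ 2 = (x - e 0) * (x - e 1) * (x - e 2)) :
    G1 e (G1 e v x y) x y = cb e v x y ^ 3 • v := by
  have hb : ∀ l m : ℂ, cb e ![l * v 0 - m * x, l * v 1 - m * y, l * v 2 - m] x y =
      l * cb e v x y - 3 * m * (y ^ 2 - (x - e 0) * (x - e 1) * (x - e 2)) := by
    intro l m
    simp [cb, s1, s2, s3]
    ring
  have ha : ∀ l m : ℂ, ca e ![l * v 0 - m * x, l * v 1 - m * y, l * v 2 - m] x y =
      l ^ 2 * ca e v x y - 2 * l * m * cb e v x y +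
        3 * m ^ 2 * (y ^ 2 - (x - e 0) * (x - e 1) * (x - e 2)) := by
    intro l m
    simp [ca, cb, s1, s2, s3]
    ring
  have h0 : G1 e v x y = ![cb e v x y * v 0 - ca e v x y * x, cb e v x y * v 1 - ca e v x y * y,
    cb e v x y * v 2 - ca e v x y] := rfl
  rw [h0]
  have hb' := hb (cb e v x y) (ca e v x y)
  have ha' := ha (cb e v x y) (ca e v x y)
  rw [h2] at hb' ha'
  apply vec_ext <;> simp [G1, hb', ha'] <;> ring

theorem G1_sym {a b x y : ℂ} : G1 e ![a, b, 1] x y = -G1 e ![x, y, 1] a b := by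
  apply vec_ext <;> simp [G1, ca, cb]

theorem G2_sym {a b x y : ℂ} (h1 : b ^ 2 = (a - e 0) * (a - e 1) * (a - e 2))
    (h2 : y ^ 2 = (x - e 0) * (x - e 1) * (x - e 2)) :
    G2 e ![a, b, 1] x y = G2 e ![x, y, 1] a b := by
  rw [G2_aff, G2_aff]
  apply vec_ext <;> simp [V3]
  · ring
  · have h3 : (a ^ 2 + a * x + x ^ 2 - s1 e * (a + x) + s2 e) * (x - a) = (b + y) * (y - b) := by
      unfold s1 s2
      linear_combination h1 - h2
    linear_combination (b + y) ^ 2 * h3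
  · ring

theorem T_sym {a b x y : ℂ} (h1 : b ^ 2 = (a - e 0) * (a - e 1) * (a - e 2))
    (h2 : y ^ 2 = (x - e 0) * (x - e 1) * (x - e 2)) :
    ∃ c : ℂ, c ≠ 0 ∧ TT3 e ![a, b, 1] x y = c • TT3 e ![x, y, 1] a b := by
  by_cases h : G1 e ![a, b, 1] x y = 0
  · have h' : G1 e ![x, y, 1] a b = 0 := by
      rw [G1_sym] at h
      exact neg_eq_zero.mp h
    refine ⟨1, one_ne_zero, ?_⟩
    unfold TT3
    rw [if_neg (not_not.mpr h), if_neg (not_not.mpr h'), one_smul]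
    exact G2_sym h1 h2
  · have h' : G1 e ![x, y, 1] a b ≠ 0 := fun h' => h (by rw [G1_sym, h', neg_zero])
    refine ⟨-1, by norm_num, ?_⟩
    rw [T_G1 h, T_G1 h', G1_sym, neg_smul, one_smul]

include hd in
/-- the involution given by the lines through the point `(e 0, 0)` -/
theorem T_T {v : Fin 3 → ℂ} (h0 : v ≠ 0) (hv : cF e v = 0) :
    ∃ c : ℂ, c ≠ 0 ∧ TT3 e (TT3 e v (e 0) 0) (e 0) 0 = c • v := by
  have h01 := sub_ne_zero.mpr (hd 0 1 (by decide))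
  have h02 := sub_ne_zero.mpr (hd 0 2 (by decide))
  have h2 : (0 : ℂ) ^ 2 = (e 0 - e 0) * (e 0 - e 1) * (e 0 - e 2) := by ring
  have hcb : cb e v (e 0) 0 = -((e 0 - e 1) * (e 0 - e 2)) * (v 0 - e 0 * v 2) := by
    simp only [cb, s1, s2, s3]
    ring
  -- the values at the two special points
  have hw : G1 e ![e 0, 0, 1] (e 0) 0 = 0 := by
    apply vec_ext <;> simp [G1, ca, cb, s1, s2, s3] <;> ring
  have hw2 : G2 e ![e 0, 0, 1] (e 0) 0 = ((e 0 - e 1) * (e 0 - e 2)) ^ 3 • ![0, 1, 0] := by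
    rw [G2_aff]
    apply vec_ext <;> simp [V3, s1, s2]
    ring
  have hO : G1 e ![0, 1, 0] (e 0) 0 = (-1 : ℂ) • ![e 0, 0, 1] := by
    apply vec_ext <;> simp [G1, ca, cb]
  have hTw : TT3 e ![e 0, 0, 1] (e 0) 0 = ((e 0 - e 1) * (e 0 - e 2)) ^ 3 • ![0, 1, 0] := by
    unfold TT3
    rw [if_neg (not_not.mpr hw), hw2]
  have hTO : TT3 e ![0, 1, 0] (e 0) 0 = (-1 : ℂ) • ![e 0, 0, 1] := by
    rw [T_G1, hO]
    rw [hO]
    intro h
    have := congrFun h 2
    simp at this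
  have hwO : ∀ c : ℂ, c ≠ 0 → v = c • ![e 0, 0, 1] →
      ∃ c : ℂ, c ≠ 0 ∧ TT3 e (TT3 e v (e 0) 0) (e 0) 0 = c • v := by
    intro c hc hcv
    obtain ⟨d, hd0, hd1⟩ := T_smul (e := e) hc ![e 0, 0, 1] (e 0) 0
    rw [hcv, hd1, hTw, smul_smul]
    obtain ⟨d', hd0', hd1'⟩ := T_smul (e := e)
      (mul_ne_zero hd0 (pow_ne_zero 3 (mul_ne_zero h01 h02))) ![0, 1, 0] (e 0) 0
    rw [hd1', hTO, smul_smul]
    refine ⟨d' * -1 * c⁻¹, mul_ne_zero (mul_ne_zero hd0' (by norm_num)) (inv_ne_zero hc), ?_⟩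
    rw [smul_smul, mul_assoc, inv_mul_cancel₀ hc, mul_one]
  have hOw : ∀ c : ℂ, c ≠ 0 → v = c • ![0, 1, 0] →
      ∃ c : ℂ, c ≠ 0 ∧ TT3 e (TT3 e v (e 0) 0) (e 0) 0 = c • v := by
    intro c hc hcv
    obtain ⟨d, hd0, hd1⟩ := T_smul (e := e) hc ![0, 1, 0] (e 0) 0
    rw [hcv, hd1, hTO, smul_smul]
    obtain ⟨d', hd0', hd1'⟩ := T_smul (e := e)
      (mul_ne_zero hd0 (by norm_num : (-1 : ℂ) ≠ 0)) ![e 0, 0, 1] (e 0) 0
    rw [hd1', hTw, smul_smul]
    refine ⟨d' * ((e 0 - e 1) * (e 0 - e 2)) ^ 3 * c⁻¹, mul_ne_zero (mul_ne_zero hd0'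
      (pow_ne_zero 3 (mul_ne_zero h01 h02))) (inv_ne_zero hc), ?_⟩
    rw [smul_smul, mul_assoc, inv_mul_cancel₀ hc, mul_one]
  by_cases hb : cb e v (e 0) 0 = 0
  · rw [hcb] at hb
    have hx : v 0 - e 0 * v 2 = 0 :=
      (mul_eq_zero.mp hb).resolve_left (neg_ne_zero.mpr (mul_ne_zero h01 h02))
    have hyz : v 1 ^ 2 * v 2 = 0 := by
      unfold cF at hv
      rw [hx] at hv
      linear_combination hv
    rcases mul_eq_zero.mp hyz with hy | hz
    · have hy' : v 1 = 0 := by simpa using hy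
      refine hwO (v 2) (fun hz => h0 (vec_ext ?_ hy' hz)) (vec_ext ?_ ?_ ?_)
      · rw [hz] at hx
        simpa using hx
      · simp
        linear_combination hx
      · simp [hy']
      · simp
    · refine hOw (v 1) (fun hy => h0 (vec_ext ?_ hy hz)) (vec_ext ?_ ?_ ?_)
      · rw [hz] at hx
        simpa using hx
      · rw [hz] at hx
        simpa using hx
      · simp
      · simp [hz]
  · have h3 := G1_G1 (e := e) (v := v) h2
    have h4 : G1 e (G1 e v (e 0) 0) (e 0) 0 ≠ 0 := by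
      rw [h3]
      exact smul_ne_zero (pow_ne_zero _ hb) h0
    have h5 : G1 e v (e 0) 0 ≠ 0 := by
      intro h5
      apply h4
      rw [h5]
      apply vec_ext <;> simp [G1, ca, cb]
    rw [T_G1 h5, T_G1 h4, h3]
    exact ⟨_, pow_ne_zero _ hb, rfl⟩

end

end Pool.Agent.X316.EC
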