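import Pool.Agent.X316.EC.Reg

/-! The regular maps of elliptic curves to a quasi-projective variety belong to the test
families. -/

set_option autoImplicit false

open Topology Set MvPolynomial

namespace Pool.Agent.X316.EC

open Pool.Agent.Y193.FG Pool.Agent.X325.HS Pool.Agent.X325.EC

section

variable {e : Fin 3 → ℂ} {n : ℕ}

/-- the affine part -/
def AY (e : Fin 3 → ℂ) : Set (Fin 2 → ℂ) := {z | z 1 ^ 2 = ∏ i, (z 0 - e i)}

theorem algSet_AY : AlgSet (AY e) := by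
  have h : AY e = {z | z 1 ^ 2 - ∏ i, (z 0 - e i) = 0} := by
    ext z
    simp only [AY, mem_ofPred_eq, sub_eq_zero]
  rw [h]
  exact AlgSet.zero (((PolyF.coord _).pow 2).sub (PolyF.prod _ (fun i =>
    (PolyF.coord _).sub (PolyF.const _))))

theorem AY_mem {x y : ℂ} (h : y ^ 2 = ∏ i, (x - e i)) : CP.mk ![x, y, 1] (T_ne0 x y) ∈ Ell e := by
  rw [mem_Ell]
  simp only [cF, Matrix.cons_val_zero, Matrix.cons_val_one, Matrix.cons_val, mul_one]
  rw [h, prod3]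
  ring

/-- the restriction of a map to the affine part -/
noncomputable def resA (φ : Ell e → CP n) (z : AY e) : CP n :=
  φ ⟨CP.mk ![z.1 0, z.1 1, 1] (T_ne0 _ _), AY_mem z.2⟩

/-- substitution of the affine coordinates -/
noncomputable def deh (P : MvPolynomial (Fin 3) ℂ) : MvPolynomial (Fin 2) ℂ :=
  aeval (![X 0, X 1, 1] : Fin 3 → MvPolynomial (Fin 2) ℂ) P

theorem eval_deh (z : Fin 2 → ℂ) (P : MvPolynomial (Fin 3) ℂ) :
    eval z (deh P) = eval ![z 0, z 1, 1] P := by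
  have h1 : eval z (deh P) = eval (fun i => eval z ((![X 0, X 1, 1] :
      Fin 3 → MvPolynomial (Fin 2) ℂ) i)) P := MvPolynomial.eval₂Hom_bind₁ _ _ _ _
  rw [h1]
  congr 2
  funext i
  fin_cases i <;> simp

theorem regular_resA {φ : Ell e → CP n} (hφ : IsRegularP (Ell e) φ) :
    IsRegularMap (AY e) (resA φ) := by
  obtain ⟨s, d, f, hf, hφ⟩ := hφ
  refine ⟨s, fun a i => deh (f a i), fun z => ?_⟩
  have he : ∀ a, (fun i => eval z.1 (deh (f a i))) = fun i => eval ![z.1 0, z.1 1, 1] (f a i) :=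
    fun a => funext fun i => eval_deh _ _
  obtain ⟨h1, h2⟩ := hφ ![z.1 0, z.1 1, 1] (T_ne0 _ _) (AY_mem z.2)
  constructor
  · obtain ⟨a, ha⟩ := h1
    exact ⟨a, by rw [he]; exact ha⟩
  · intro a h
    have h' : (fun i => eval ![z.1 0, z.1 1, 1] (f a i)) ≠ 0 := by
      rw [← he]
      exact h
    refine (h2 a h').trans ?_
    exact mk_eq_mk.mpr ⟨1, one_ne_zero, by rw [one_smul]; exact (he a).symm⟩

variable {ι κ : Type} [Fintype κ]
  {p : ι → MvPolynomial (Fin (n + 1)) ℂ} {q : κ → MvPolynomial (Fin (n + 1)) ℂ}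
  (hp : ∀ i, ∃ d, (p i).IsHomogeneous d) (hq : ∀ j, ∃ d, (q j).IsHomogeneous d)
  {ρ : C(QA (PT p) (QT q), QP p q)}
  (hρ : ∀ (v η : Fin (n + 1) → ℂ) (hv : v ≠ 0) (h : outer v η ∈ QA (PT p) (QT q)),
        ∑ i, v i * η i = 1 → (ρ ⟨outer v η, h⟩).1 = CP.mk v hv)

include hp hq in
/-- the parameters of a regular map -/
theorem exists_par (hd : ∀ i j, i ≠ j → e i ≠ e j) {φ : Ell e → CP n}
    (hφ : IsRegularP (Ell e) φ) (hX : ∀ P, φ P ∈ QP p q) :
    ∃ (D d m : ℕ) (w : PJ n κ D d → ℂ), OK p q m w ∧ pe w = e ∧ ∀ z : AY e,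
      ∃ (v η : Fin (n + 1) → ℂ) (hv : v ≠ 0), resA φ z = CP.mk v hv ∧ ∑ i, v i * η i = 1 ∧
        (fun b => bev (pG w b) z.1) = outer v η := by
  classical
  obtain ⟨F, hF⟩ := lift_regular algSet_AY (regular_resA hφ)
  obtain ⟨s, dd, f, hf, hφ'⟩ := hφ
  -- the homogeneous coordinates at infinity
  obtain ⟨⟨a, ha⟩, hO⟩ := hφ' ![0, 1, 0] O_ne O_mem
  have hOX : CP.mk _ ha ∈ QP p q := by
    rw [← hO a ha]
    exact hX _
  obtain ⟨hOp, j₀, hOq⟩ := (mem_QP hp hq).mp hOX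
  obtain ⟨l₀, hl₀⟩ := Function.ne_iff.mp ha
  have hl₀' : eval ![0, 1, 0] (f a l₀) ≠ 0 := hl₀
  -- the certificates
  have hFm : ∀ z ∈ AY e, (fun b => eval z (F b)) ∈ QA (PT p) (QT q) := by
    intro z hz
    obtain ⟨v, η, hv, h1, h2, h3⟩ := hF ⟨z, hz⟩
    rw [h3]
    exact outer_mem hp hq (hv := hv) h2 (by rw [← h1]; exact hX _)
  obtain ⟨g, hg⟩ := exists_bezout (algSet_AY (e := e)) (fun j => bind₁ F (QT q j))
    (fun z hz => by
      obtain ⟨j, hj⟩ := (hFm z hz).2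
      refine ⟨j, ?_⟩
      have : eval z (bind₁ F (QT q j)) = eval (fun i => eval z (F i)) (QT q j) :=
        MvPolynomial.eval₂Hom_bind₁ _ _ _ _
      rw [this]
      exact hj)
  -- the coefficients
  obtain ⟨D₁, hD₁⟩ := exists_bev_fin F
  obtain ⟨D₂, hD₂⟩ := exists_bev_fin g
  obtain ⟨d, hd3⟩ := exists_bev_fin (f a)
  obtain ⟨cF', hcF⟩ := hD₁ (max D₁ D₂) (le_max_left _ _)
  obtain ⟨cg, hcg⟩ := hD₂ (max D₁ D₂) (le_max_right _ _)
  obtain ⟨ch, hch⟩ := hd3 d le_rfl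
  have h01 := sub_ne_zero.mpr (hd 0 1 (by decide))
  have h02 := sub_ne_zero.mpr (hd 0 2 (by decide))
  have h12 := sub_ne_zero.mpr (hd 1 2 (by decide))
  let w : PJ n κ (max D₁ D₂) d → ℂ := Sum.elim e (Sum.elim
    (fun _ => ((e 0 - e 1) * (e 0 - e 2) * (e 1 - e 2))⁻¹) (Sum.elim (fun b => cF' b.1 b.2)
    (Sum.elim (fun b => cg b.1 b.2) (Sum.elim (fun b => ch b.1 b.2) (Sum.elim
      (Pi.single l₀ (eval ![0, 1, 0] (f a l₀))⁻¹)
      (Pi.single j₀ (eval (fun i => eval ![0, 1, 0] (f a i)) (q j₀))⁻¹))))))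
  have hwF : ∀ (x y : ℂ), (fun b => bev (pG w b) ![x, y]) = fun b => eval ![x, y] (F b) :=
    fun x y => funext fun b => (hcF b _).symm
  have hwh : ∀ (v : Fin 3 → ℂ) l, bev (ph w l) v = eval v (f a l) := fun v l => (hch l _).symm
  have hwh' : ∀ (v : Fin 3 → ℂ), (fun l => bev (ph w l) v) = fun l => eval v (f a l) :=
    fun v => funext fun l => hwh v l
  have hmemz : ∀ x y : ℂ, y ^ 2 = ∏ i, (x - e i) → (![x, y] : Fin 2 → ℂ) ∈ AY e :=
    fun x y h => h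
  refine ⟨max D₁ D₂, d, dd a, w, ⟨?_, fun x y h i => ?_, fun x y h => ?_, fun c v l => ?_,
    fun x y h l => ?_, ?_, ?_, ?_⟩, rfl, fun z => ?_⟩
  · exact inv_mul_cancel₀ (mul_ne_zero (mul_ne_zero h01 h02) h12)
  · rw [hwF]
    exact (hFm _ (hmemz x y h)).1 i
  · rw [hwF]
    have h1 := hg _ (hmemz x y h)
    rw [← h1]
    refine Finset.sum_congr rfl (fun j _ => ?_)
    have h2 : eval ![x, y] (bind₁ F (QT q j)) = eval (fun i => eval ![x, y] (F i)) (QT q j) :=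
      MvPolynomial.eval₂Hom_bind₁ _ _ _ _
    rw [h2]
    congr 1
    exact (hcg j _).symm
  · rw [hwh, hwh]
    exact eval_smul' (hf a l) c v
  · obtain ⟨v, η, hv, h1, h2, h3⟩ := hF ⟨![x, y], hmemz x y h⟩
    have h4 : ∀ b, bev (pG w b) ![x, y] = v b.1 * η b.2 := fun b => by
      rw [show bev (pG w b) ![x, y] = eval ![x, y] (F b) from congrFun (hwF x y) b]
      exact congrFun h3 b
    obtain ⟨c, hc⟩ : ∃ c : ℂ, (fun i => eval ![x, y, 1] (f a i)) = c • v := by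
      by_cases h5 : (fun i => eval ![x, y, 1] (f a i)) = 0
      · exact ⟨0, by rw [h5, zero_smul]⟩
      · have h6 := (hφ' ![x, y, 1] (T_ne0 _ _) (AY_mem h)).2 a h5
        have h7 : resA φ ⟨![x, y], hmemz x y h⟩ = CP.mk _ h5 := h6
        rw [h1] at h7
        obtain ⟨c, hc, h8⟩ := mk_eq_mk.mp h7.symm
        exact ⟨c, h8⟩
    have hc' : ∀ k, bev (ph w k) ![x, y, 1] = c * v k := fun k => by
      rw [hwh]
      exact congrFun hc k
    simp only [h4, hc']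
    calc ∑ k, v l * η k * (c * v k) = c * v l * ∑ k, v k * η k := by
          rw [Finset.mul_sum]
          exact Finset.sum_congr rfl (fun k _ => by ring)
      _ = c * v l := by rw [h2, mul_one]
  · rw [Finset.sum_eq_single l₀]
    · rw [hwh]
      show (Pi.single l₀ (eval ![0, 1, 0] (f a l₀))⁻¹ : Fin (n + 1) → ℂ) l₀ * _ = 1
      rw [Pi.single_eq_same, inv_mul_cancel₀ hl₀']
    · intro l _ hl
      show (Pi.single l₀ (eval ![0, 1, 0] (f a l₀))⁻¹ : Fin (n + 1) → ℂ) l * _ = 0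
      rw [Pi.single_eq_of_ne hl, zero_mul]
    · intro h
      exact absurd (Finset.mem_univ _) h
  · intro i
    rw [hwh']
    exact hOp i
  · rw [hwh', Finset.sum_eq_single j₀]
    · show (Pi.single j₀ (eval (fun i => eval ![0, 1, 0] (f a i)) (q j₀))⁻¹ : κ → ℂ) j₀ * _ = 1
      rw [Pi.single_eq_same, inv_mul_cancel₀ hOq]
    · intro l _ hl
      show (Pi.single j₀ (eval (fun i => eval ![0, 1, 0] (f a i)) (q j₀))⁻¹ : κ → ℂ) l * _ = 0
      rw [Pi.single_eq_of_ne hl, zero_mul]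
    · intro h
      exact absurd (Finset.mem_univ _) h
  · obtain ⟨v, η, hv, h1, h2, h3⟩ := hF z
    refine ⟨v, η, hv, h1, h2, ?_⟩
    rw [← h3]
    exact funext fun b => (hcF b _).symm

end

end Pool.Agent.X316.EC
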