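import Pool.Agent.X316.EC.Add
import Pool.Agent.X325.HS.Ext

/-! The fundamental group of an elliptic curve is commutative. -/

set_option autoImplicit false

open Topology Set unitInterval

namespace Pool.Agent.X316.EC

section

variable {e : Fin 3 → ℂ} (hd : ∀ i j, i ≠ j → e i ≠ e j) {Z : Type} [TopologicalSpace Z]

/-- the cone over the projective cubic -/
abbrev Cone (e : Fin 3 → ℂ) : Type := {v : Fin 3 → ℂ // v ≠ 0 ∧ cF e v = 0}

/-- the affine cubic -/
abbrev Aff (e : Fin 3 → ℂ) : Type :=
  {z : Fin 2 → ℂ // z 1 ^ 2 = (z 0 - e 0) * (z 0 - e 1) * (z 0 - e 2)}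

include hd in
/-- the third point, in the cone -/
noncomputable def tC (p : Cone e × Aff e) : Cone e :=
  ⟨TT3 e p.1.1 (p.2.1 0) (p.2.1 1), T_ne hd p.1.2.1 p.1.2.2 p.2.2, cF_T p.1.2.2 p.2.2⟩

/-- the map is constant on the lines of the cone -/
def Inv (Φ : Cone e → Z) : Prop := ∀ (v w : Cone e) (c : ℂ), c ≠ 0 → v.1 = c • w.1 → Φ v = Φ w

theorem continuous_G1 : Continuous (fun p : Cone e × Aff e => G1 e p.1.1 (p.2.1 0) (p.2.1 1)) := by
  have h : ∀ i, Continuous (fun p : Cone e × Aff e => p.1.1 i) := fun i =>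
    (continuous_apply i).comp (continuous_subtype_val.comp continuous_fst)
  have h' : ∀ i, Continuous (fun p : Cone e × Aff e => p.2.1 i) := fun i =>
    (continuous_apply i).comp (continuous_subtype_val.comp continuous_snd)
  have h0 := h 0
  have h1 := h 1
  have h2 := h 2
  have k0 := h' 0
  have k1 := h' 1
  refine continuous_pi (fun i => ?_)
  fin_cases i <;> simp [G1, ca, cb] <;> fun_prop

theorem continuous_G2 : Continuous (fun p : Cone e × Aff e => G2 e p.1.1 (p.2.1 0) (p.2.1 1)) := by
  have h : ∀ i, Continuous (fun p : Cone e × Aff e => p.1.1 i) := fun i =>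
    (continuous_apply i).comp (continuous_subtype_val.comp continuous_fst)
  have h' : ∀ i, Continuous (fun p : Cone e × Aff e => p.2.1 i) := fun i =>
    (continuous_apply i).comp (continuous_subtype_val.comp continuous_snd)
  have h0 := h 0
  have h1 := h 1
  have h2 := h 2
  have k0 := h' 0
  have k1 := h' 1
  refine continuous_pi (fun i => ?_)
  fin_cases i <;> simp [G2, V3, cD, cN] <;> fun_prop

theorem contAt_of {A : Type} [TopologicalSpace A] {f : A → Z} {U : Set A} (hU : IsOpen U)
    {g : U → Z} (hg : Continuous g) (h : ∀ a : U, g a = f a.1) {a : A} (ha : a ∈ U) :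
    ContinuousAt f a := by
  refine ContinuousOn.continuousAt (s := U) ?_ (hU.mem_nhds ha)
  rw [continuousOn_iff_continuous_domRestrict]
  exact hg.congr h

/-- the first formula -/
noncomputable def g1 (p : {p : Cone e × Aff e | G1 e p.1.1 (p.2.1 0) (p.2.1 1) ≠ 0}) : Cone e :=
  ⟨G1 e p.1.1.1 (p.1.2.1 0) (p.1.2.1 1), p.2, cF_G1 p.1.1.2.2 p.1.2.2⟩

/-- the second formula -/
noncomputable def g2 (p : {p : Cone e × Aff e | G2 e p.1.1 (p.2.1 0) (p.2.1 1) ≠ 0}) : Cone e :=
  ⟨G2 e p.1.1.1 (p.1.2.1 0) (p.1.2.1 1), p.2, cF_G2 p.1.1.2.2 p.1.2.2⟩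

theorem continuous_g1 : Continuous (g1 (e := e)) :=
  Continuous.subtype_mk (continuous_G1.comp continuous_subtype_val) _

theorem continuous_g2 : Continuous (g2 (e := e)) :=
  Continuous.subtype_mk (continuous_G2.comp continuous_subtype_val) _

theorem continuous_tC {Φ : Cone e → Z} (hΦ : Continuous Φ) (hi : Inv Φ) :
    Continuous (fun p : Cone e × Aff e => Φ (tC hd p)) := by
  rw [continuous_iff_continuousAt]
  intro p
  by_cases h : G1 e p.1.1 (p.2.1 0) (p.2.1 1) = 0
  · have h2 := cover hd p.1.2.1 p.1.2.2 p.2.2 h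
    exact contAt_of (isOpen_ne_fun continuous_G2 continuous_const)
      (g := fun p => Φ (g2 p)) (hΦ.comp continuous_g2) (fun p => by
        obtain ⟨c, hc, h3⟩ := T_G2 p.1.1.2.2 p.1.2.2 p.2
        exact hi _ _ c hc h3) h2
  · exact contAt_of (isOpen_ne_fun continuous_G1 continuous_const)
      (g := fun p => Φ (g1 p)) (hΦ.comp continuous_g1) (fun p =>
        congrArg Φ (Subtype.ext (T_G1 p.2).symm)) h

theorem inv_tC {Φ : Cone e → Z} (hi : Inv Φ) (z : Aff e) : Inv (fun v => Φ (tC hd (v, z))) := by
  intro v w c hc h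
  obtain ⟨d, hd0, hd1⟩ := T_smul (e := e) hc w.1 (z.1 0) (z.1 1)
  refine hi _ _ d hd0 ?_
  show TT3 e v.1 _ _ = _
  rw [h, hd1]
  rfl

/-- the inclusion of the affine cubic -/
def toCone (z : Aff e) : Cone e := ⟨![z.1 0, z.1 1, 1], by
  constructor
  · intro h
    have := congrFun h 2
    simp at this
  · simp only [cF, Matrix.cons_val_zero, Matrix.cons_val_one, Matrix.cons_val, mul_one]
    rw [z.2]
    ring⟩

theorem continuous_toCone : Continuous (toCone (e := e)) := by
  refine Continuous.subtype_mk (continuous_pi (fun i => ?_)) _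
  have h' : ∀ i, Continuous (fun p : Aff e => p.1 i) := fun i =>
    (continuous_apply i).comp continuous_subtype_val
  fin_cases i
  · exact h' 0
  · exact h' 1
  · exact continuous_const

/-- the point `(e 0, 0)` -/
def pt0 (e : Fin 3 → ℂ) : Aff e := ⟨![e 0, 0], by simp⟩

include hd in
/-- two loops at the point `(e 0, 0)` of the affine cubic commute in the projective cubic -/
theorem comm_pt0 {Φ : Cone e → Z} (hΦ : Continuous Φ) (hi : Inv Φ) (α β : Path (pt0 e) (pt0 e)) :
    ((Path.Homotopic.Quotient.mk (α.map (hΦ.comp continuous_toCone))).trans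
      (Path.Homotopic.Quotient.mk (β.map (hΦ.comp continuous_toCone)))) =
    ((Path.Homotopic.Quotient.mk (β.map (hΦ.comp continuous_toCone))).trans
      (Path.Homotopic.Quotient.mk (α.map (hΦ.comp continuous_toCone)))) := by
  -- the involution
  let Φ' : Cone e → Z := fun v => Φ (tC hd (v, pt0 e))
  have hΦ' : Continuous Φ' := (continuous_tC hd hΦ hi).comp (Continuous.prodMk_left _)
  have hi' : Inv Φ' := inv_tC hd hi _
  let H : C(I × I, Z) := ⟨fun s => Φ' (tC hd (toCone (α s.1), β s.2)),
    (continuous_tC hd hΦ' hi').comp (Continuous.prodMk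
      (continuous_toCone.comp (α.continuous.comp continuous_fst))
      (β.continuous.comp continuous_snd))⟩
  have hinv : ∀ v : Cone e, Φ' (tC hd (v, pt0 e)) = Φ v := by
    intro v
    obtain ⟨c, hc, h⟩ := T_T hd v.2.1 v.2.2
    exact hi _ _ c hc h
  have hsym : ∀ z : Aff e, Φ' (tC hd (toCone (pt0 e), z)) = Φ (toCone z) := by
    intro z
    rw [← hinv (toCone z)]
    obtain ⟨c, hc, h⟩ := T_sym (e := e) (pt0 e).2 z.2
    exact hi' _ _ c hc h
  have h1 : ∀ s, H (s, 0) = Φ (toCone (α s)) := fun s => by
    show Φ' (tC hd (toCone (α s), β 0)) = _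
    rw [β.source]
    exact hinv _
  have h2 : ∀ s, H (s, 1) = Φ (toCone (α s)) := fun s => by
    show Φ' (tC hd (toCone (α s), β 1)) = _
    rw [β.target]
    exact hinv _
  have h3 : ∀ t, H (0, t) = Φ (toCone (β t)) := fun t => by
    show Φ' (tC hd (toCone (α 0), β t)) = _
    rw [α.source]
    exact hsym _
  have h4 : ∀ t, H (1, t) = Φ (toCone (β t)) := fun t => by
    show Φ' (tC hd (toCone (α 1), β t)) = _
    rw [α.target]
    exact hsym _
  exact Pool.Agent.X325.HS.square H _ _ _ _ (fun s => (h1 s).symm) (fun t => (h4 t).symm)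
    (fun t => (h3 t).symm) (fun s => (h2 s).symm)

end

section

open Pool.Agent.Y193.FG (map_trans')

theorem comm_trans {Z : Type} [TopologicalSpace Z] {a b : Z} (d : Path.Homotopic.Quotient a b)
    (x y : Path.Homotopic.Quotient b b)
    (h : (d.trans (x.trans d.symm)).trans (d.trans (y.trans d.symm)) =
      (d.trans (y.trans d.symm)).trans (d.trans (x.trans d.symm))) : x.trans y = y.trans x := by
  have key : ∀ x y : Path.Homotopic.Quotient b b,
      d.symm.trans (((d.trans (x.trans d.symm)).trans (d.trans (y.trans d.symm))).trans d) =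
        x.trans y := by
    intro x y
    simp only [Path.Homotopic.Quotient.trans_assoc]
    rw [← Path.Homotopic.Quotient.trans_assoc d.symm d, Path.Homotopic.Quotient.symm_trans,
      Path.Homotopic.Quotient.refl_trans, ← Path.Homotopic.Quotient.trans_assoc d.symm d,
      Path.Homotopic.Quotient.symm_trans, Path.Homotopic.Quotient.refl_trans,
      Path.Homotopic.Quotient.trans_refl]
  rw [← key x y, h, key]

/-- If the loops at one point of a path connected space have images which commute, the images of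
the elements of the fundamental groups commute. -/
theorem comm_of_comm {A Z : Type} [TopologicalSpace A] [PathConnectedSpace A]
    [TopologicalSpace Z] (ψ : C(A, Z)) (a₀ : A)
    (h : ∀ α β : Path a₀ a₀, (Path.Homotopic.Quotient.mk (α.map ψ.continuous)).trans
      (Path.Homotopic.Quotient.mk (β.map ψ.continuous)) =
      (Path.Homotopic.Quotient.mk (β.map ψ.continuous)).trans
      (Path.Homotopic.Quotient.mk (α.map ψ.continuous))) (a : A) (x y : FundamentalGroup A a) :
    FundamentalGroup.map ψ a x * FundamentalGroup.map ψ a y =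
      FundamentalGroup.map ψ a y * FundamentalGroup.map ψ a x := by
  have hc : ∀ x y : Path.Homotopic.Quotient a a, (x.map ψ).trans (y.map ψ) =
      (y.map ψ).trans (x.map ψ) := by
    intro x y
    let d : Path.Homotopic.Quotient a₀ a := Path.Homotopic.Quotient.mk (PathConnectedSpace.somePath a₀ a)
    obtain ⟨α, hα⟩ := Path.Homotopic.Quotient.mk_surjective (d.trans (x.trans d.symm))
    obtain ⟨β, hβ⟩ := Path.Homotopic.Quotient.mk_surjective (d.trans (y.trans d.symm))
    have h1 := h α β
    have e1 : Path.Homotopic.Quotient.mk (α.map ψ.continuous) =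
        (d.map ψ).trans ((x.map ψ).trans (d.map ψ).symm) := by
      have h2 : Path.Homotopic.Quotient.mk (α.map ψ.continuous) =
        (Path.Homotopic.Quotient.mk α).map ψ := rfl
      rw [h2, hα, map_trans', map_trans']
      rfl
    have e2 : Path.Homotopic.Quotient.mk (β.map ψ.continuous) =
        (d.map ψ).trans ((y.map ψ).trans (d.map ψ).symm) := by
      have h2 : Path.Homotopic.Quotient.mk (β.map ψ.continuous) =
        (Path.Homotopic.Quotient.mk β).map ψ := rfl
      rw [h2, hβ, map_trans', map_trans']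
      rfl
    rw [e1, e2] at h1
    exact comm_trans _ _ _ h1
  exact hc y x

end

end Pool.Agent.X316.EC
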