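import Pool.Agent.X316.EC.TFam
import Pool.Agent.X325.EC.FG

/-! The images of the fundamental groups of the fibres of the test families. -/

set_option autoImplicit false

open Topology Set

namespace Pool.Agent.X316.EC

open Pool.Agent.Y193.FG Pool.Agent.X325.HS Pool.Agent.X325.EC

section

variable {n : ℕ} {ι κ : Type} [Fintype κ] {D d m : ℕ}
  {p : ι → MvPolynomial (Fin (n + 1)) ℂ} {q : κ → MvPolynomial (Fin (n + 1)) ℂ}
  {w : PJ n κ D d → ℂ}

/-- the matrix of the point `(x, y)` -/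
noncomputable def Mw (w : PJ n κ D d → ℂ) (x y : ℂ) : TI n → ℂ := fun b => bev (pG w b) ![x, y]

/-- the map near the point at infinity -/
noncomputable def Hw (w : PJ n κ D d → ℂ) (v : Fin 3 → ℂ) : Fin (n + 1) → ℂ :=
  fun l => bev (ph w l) v

theorem prod3 (e : Fin 3 → ℂ) (x : ℂ) : ∏ i, (x - e i) = (x - e 0) * (x - e 1) * (x - e 2) :=
  Fin.prod_univ_three _

theorem Mw_mem (h : OK p q m w) {v : Fin 3 → ℂ} (hv : cF (pe w) v = 0) (hz : v 2 ≠ 0) :
    Mw w (v 0 / v 2) (v 1 / v 2) ∈ QA (PT p) (QT q) := by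
  have h2 := curve_of hv hz
  rw [← prod3] at h2
  exact mem_QA_of (g := fun j => bev (pg w j) ![v 0 / v 2, v 1 / v 2])
    (h.memP _ _ h2) (h.memQ _ _ h2)

theorem Hw_smul (h : OK p q m w) (s : ℂ) (v : Fin 3 → ℂ) : Hw w (s • v) = s ^ m • Hw w v :=
  funext fun l => h.hom s v l

theorem Hw_inf (h : OK p q m w) : Hw w ![0, 1, 0] ≠ 0 := by
  intro h0
  have h1 := h.inf
  rw [Finset.sum_eq_zero (fun l _ => by
    rw [show bev (ph w l) ![0, 1, 0] = 0 from congrFun h0 l, mul_zero])] at h1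
  exact zero_ne_one h1

theorem inf_mem (hp : ∀ i, ∃ d, (p i).IsHomogeneous d) (hq : ∀ j, ∃ d, (q j).IsHomogeneous d)
    (h : OK p q m w) : CP.mk _ (Hw_inf h) ∈ QP p q := by
  refine (mem_QP hp hq).mpr ⟨h.infP, ?_⟩
  by_contra hcon
  push Not at hcon
  have h1 := h.infQ
  rw [Finset.sum_eq_zero (fun j _ => by
    rw [show MvPolynomial.eval (fun l => bev (ph w l) ![0, 1, 0]) (q j) = 0 from hcon j,
      mul_zero])] at h1
  exact zero_ne_one h1

open Classical in
/-- the map on the cone -/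
noncomputable def PhC (hp : ∀ i, ∃ d, (p i).IsHomogeneous d) (hq : ∀ j, ∃ d, (q j).IsHomogeneous d)
    (ρ : C(QA (PT p) (QT q), QP p q)) (h : OK p q m w) (v : Cone (pe w)) : QP p q :=
  if hz : v.1 2 ≠ 0 then ρ ⟨_, Mw_mem h v.2.2 hz⟩ else ⟨_, inf_mem hp hq h⟩

variable (hp : ∀ i, ∃ d, (p i).IsHomogeneous d) (hq : ∀ j, ∃ d, (q j).IsHomogeneous d)
  {ρ : C(QA (PT p) (QT q), QP p q)}
  (hρ : ∀ (v η : Fin (n + 1) → ℂ) (hv : v ≠ 0) (h : outer v η ∈ QA (PT p) (QT q)),
        ∑ i, v i * η i = 1 → (ρ ⟨outer v η, h⟩).1 = CP.mk v hv)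

omit [Fintype κ] in
theorem inf_of {e : Fin 3 → ℂ} (v : Cone e) (hz : v.1 2 = 0) :
    v.1 1 ≠ 0 ∧ v.1 = v.1 1 • ![0, 1, 0] := by
  have hx : v.1 0 = 0 := by
    have h := v.2.2
    unfold cF at h
    rw [hz] at h
    simpa using h
  constructor
  · intro hy
    exact v.2.1 (vec_ext hx hy hz)
  · apply vec_ext <;> simp [hx, hz]

include hρ in
/-- near the point at infinity, the map is given by the homogeneous polynomials -/
theorem PhC_eq (h : OK p q m w) (v : Cone (pe w)) (hv : Hw w v.1 ≠ 0) :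
    (PhC hp hq ρ h v).1 = CP.mk _ hv := by
  unfold PhC
  split_ifs with hz
  · have h2 := curve_of v.2.2 hz
    have h2' := h2
    rw [← prod3] at h2'
    have hc : Hw w v.1 = v.1 2 ^ m • Hw w ![v.1 0 / v.1 2, v.1 1 / v.1 2, 1] := by
      conv_lhs => rw [aff_of hz]
      exact Hw_smul h _ _
    refine rho_col hp hq hρ _ hv (fun l => ?_)
    rw [hc]
    simp only [Pi.smul_apply, smul_eq_mul]
    have h3 := h.comp _ _ h2' l
    show ∑ k, Mw w _ _ (l, k) * (_ * Hw w _ k) = _ * Hw w _ l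
    have h4 : ∑ k, Mw w (v.1 0 / v.1 2) (v.1 1 / v.1 2) (l, k) *
        Hw w ![v.1 0 / v.1 2, v.1 1 / v.1 2, 1] k = Hw w ![v.1 0 / v.1 2, v.1 1 / v.1 2, 1] l := h3
    rw [← h4, Finset.mul_sum]
    exact Finset.sum_congr rfl (fun k _ => by ring)
  · obtain ⟨hy, hvy⟩ := inf_of v (not_not.mp hz)
    refine mk_eq_mk.mpr ⟨(v.1 1 ^ m)⁻¹, inv_ne_zero (pow_ne_zero _ hy), ?_⟩
    have h3 : Hw w v.1 = v.1 1 ^ m • Hw w ![0, 1, 0] := by
      conv_lhs => rw [hvy]
      exact Hw_smul h _ _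
    rw [h3, smul_smul, inv_mul_cancel₀ (pow_ne_zero _ hy), one_smul]

theorem continuous_Hw (w : PJ n κ D d → ℂ) : Continuous (Hw w) :=
  continuous_pi (fun l => continuous_bev.comp (Continuous.prodMk_right _))

theorem continuous_Mw (w : PJ n κ D d → ℂ) : Continuous (fun z : ℂ × ℂ => Mw w z.1 z.2) := by
  refine continuous_pi (fun l => continuous_bev.comp
    (Continuous.prodMk continuous_const (continuous_pi (fun j => ?_))))
  fin_cases j
  · exact continuous_fst
  · exact continuous_snd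

/-- the lift to the affine bundle over the affine part -/
noncomputable def gz (h : OK p q m w) (v : {v : Cone (pe w) | v.1 2 ≠ 0}) : QA (PT p) (QT q) :=
  ⟨Mw w (v.1.1 0 / v.1.1 2) (v.1.1 1 / v.1.1 2), Mw_mem h v.1.2.2 v.2⟩

theorem continuous_gz (h : OK p q m w) : Continuous (gz h) := by
  have hcz : ∀ i, Continuous (fun v : {v : Cone (pe w) | v.1 2 ≠ 0} => v.1.1 i) := fun i =>
    (continuous_apply i).comp (continuous_subtype_val.comp continuous_subtype_val)
  have h1 : Continuous (fun v : {v : Cone (pe w) | v.1 2 ≠ 0} =>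
      (v.1.1 0 / v.1.1 2, v.1.1 1 / v.1.1 2)) :=
    Continuous.prodMk ((hcz 0).div₀ (hcz 2) (fun v => v.2)) ((hcz 1).div₀ (hcz 2) (fun v => v.2))
  exact Continuous.subtype_mk ((continuous_Mw w).comp h1) _

include hρ in
theorem continuous_PhC (h : OK p q m w) : Continuous (PhC hp hq ρ h) := by
  refine continuous_induced_rng.mpr ?_
  rw [continuous_iff_continuousAt]
  intro v
  by_cases hz : v.1 2 = 0
  · obtain ⟨hy, hvy⟩ := inf_of v hz
    have h3 : Hw w v.1 ≠ 0 := by
      rw [hvy, Hw_smul h]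
      exact smul_ne_zero (pow_ne_zero _ hy) (Hw_inf h)
    exact contAt_of (U := {v : Cone (pe w) | Hw w v.1 ≠ 0})
      (isOpen_ne_fun ((continuous_Hw w).comp continuous_subtype_val) continuous_const)
      (g := fun v => CP.mk (Hw w v.1.1) v.2)
      (continuous_mk ((continuous_Hw w).comp (continuous_subtype_val.comp continuous_subtype_val)) _)
      (fun v => (PhC_eq hp hq hρ h v.1 v.2).symm) h3
  · have hcz : Continuous (fun v : Cone (pe w) => v.1 2) :=
      (continuous_apply 2).comp continuous_subtype_val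
    have hg : Continuous (fun v : {v : Cone (pe w) | v.1 2 ≠ 0} => (ρ (gz h v)).1) :=
      continuous_subtype_val.comp (ρ.continuous.comp (continuous_gz h))
    exact contAt_of (U := {v : Cone (pe w) | v.1 2 ≠ 0}) (isOpen_ne_fun hcz continuous_const)
      hg (fun v => by
        show (ρ (gz h v)).1 = (PhC hp hq ρ h v.1).1
        have hv2 : v.1.1 2 ≠ 0 := v.2
        unfold PhC
        rw [dif_pos hv2]
        rfl) hz

theorem inv_PhC (h : OK p q m w) : Inv (PhC hp hq ρ h) := by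
  intro v u c hc hvu
  have h2 : v.1 2 = c * u.1 2 := congrFun hvu 2
  unfold PhC
  by_cases hz : u.1 2 = 0
  · rw [dif_neg (not_not.mpr hz), dif_neg (not_not.mpr (by rw [h2, hz, mul_zero]))]
  · have hz' : v.1 2 ≠ 0 := by
      rw [h2]
      exact mul_ne_zero hc hz
    rw [dif_pos hz, dif_pos hz']
    congr 2
    have h0 : v.1 0 = c * u.1 0 := congrFun hvu 0
    have h1 : v.1 1 = c * u.1 1 := congrFun hvu 1
    rw [h0, h1, h2, mul_div_mul_left _ _ hc, mul_div_mul_left _ _ hc]

include hp hq hρ in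
theorem images_YS : FibreImagesIn (YS p q D d m) (CubPi _) (phS (m := m) ρ) Poly := by
  intro y hy
  obtain ⟨h, hcur⟩ := mem_YS.mp hy
  have hd := dist_of h.dist
  -- the coordinates on the fibre
  have hw : ∀ z : Fib (YS p q D d m) (CubPi _) y, wS n κ D d z.1 = wS n κ D d y := by
    intro z
    funext j
    have h1 := z.2.2 (sg n κ D d j)
    rw [eval_CubPi, eval_CubPi] at h1
    exact h1
  let j : Fib (YS p q D d m) (CubPi _) y → Aff (pe (wS n κ D d y)) := fun z =>
    ⟨![z.1 (Fin.natAdd _ 0), z.1 (Fin.natAdd _ 1)], by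
      have h1 := (mem_YS.mp z.2.1).2
      rw [hw z, prod3] at h1
      exact h1⟩
  have hc0 : ∀ i, Continuous (fun z : Fib (YS p q D d m) (CubPi _) y => z.1 i) := fun i =>
    (continuous_apply i).comp continuous_subtype_val
  have hj : Continuous j := by
    refine Continuous.subtype_mk (continuous_pi (fun i => ?_)) _
    fin_cases i
    · exact hc0 _
    · exact hc0 _
  have hpc : PathConnectedSpace (Fib (YS p q D d m) (CubPi _) y) :=
    isPathConnected_iff_pathConnectedSpace.mp (family_YS.1 y hy)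
  -- the base point
  let y₀ : Fin (na n κ D d + 2) → ℂ :=
    cpt (fun j => y (Fin.castAdd 2 j)) (pe (wS n κ D d y) 0, 0)
  have hwy : wS n κ D d y₀ = wS n κ D d y := funext fun j => cpt_left _ _ _
  have hy0x : y₀ (Fin.natAdd _ 0) = pe (wS n κ D d y) 0 := cpt_x _ _
  have hy0y : y₀ (Fin.natAdd _ 1) = 0 := cpt_y _ _
  have hy₀ : y₀ ∈ YS p q D d m := by
    refine mem_YS.mpr ⟨by rw [hwy]; exact h, ?_⟩
    rw [hwy, hy0x, hy0y, prod3]
    ring
  let z₀ : Fib (YS p q D d m) (CubPi _) y := ⟨y₀, hy₀, fun j => by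
    rw [eval_CubPi, eval_CubPi]
    exact cpt_left _ _ _⟩
  have hjz : j z₀ = pt0 _ := by
    apply Subtype.ext
    funext i
    fin_cases i
    · exact hy0x
    · exact hy0y
  have hfac : ∀ z, toFib (π := CubPi _) (phS (m := m) ρ) y z = PhC hp hq ρ h (toCone (j z)) := by
    intro z
    have h1 : (toCone (j z)).1 2 ≠ 0 := one_ne_zero
    unfold PhC
    rw [dif_pos h1]
    show ρ _ = ρ _
    congr 1
    apply Subtype.ext
    show MS z.1 = Mw _ _ _
    unfold MS Mw
    rw [hw z]
    simp [toCone, j]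
  have hcΦ := continuous_PhC hp hq hρ h
  have hi := inv_PhC hp hq (ρ := ρ) h
  have hmap : ∀ α : Path z₀ z₀, α.map (toFib (π := CubPi _) (phS (m := m) ρ) y).continuous =
      (((α.map hj).cast hjz.symm hjz.symm).map (hcΦ.comp continuous_toCone)).cast
        (by rw [hfac, hjz]; rfl) (by rw [hfac, hjz]; rfl) := by
    intro α
    ext t
    exact congrArg Subtype.val (hfac (α t))
  refine fun z => poly_range _ (fg_Fib dist_WS hy z)
    (comm_of_comm (toFib (π := CubPi _) (phS (m := m) ρ) y) z₀ (fun α β => ?_) z)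
  rw [hmap, hmap]
  have h2 := comm_pt0 hd hcΦ hi ((α.map hj).cast hjz.symm hjz.symm)
    ((β.map hj).cast hjz.symm hjz.symm)
  have key : ∀ {a b : QP p q} (hab : a = b) (P Q : Path b b),
      (Path.Homotopic.Quotient.mk P).trans (Path.Homotopic.Quotient.mk Q) =
        (Path.Homotopic.Quotient.mk Q).trans (Path.Homotopic.Quotient.mk P) →
      (Path.Homotopic.Quotient.mk (P.cast hab hab)).trans
        (Path.Homotopic.Quotient.mk (Q.cast hab hab)) =
        (Path.Homotopic.Quotient.mk (Q.cast hab hab)).trans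
          (Path.Homotopic.Quotient.mk (P.cast hab hab)) := by
    intro a b hab P Q hPQ
    subst hab
    exact hPQ
  exact key _ _ _ h2

end

end Pool.Agent.X316.EC
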