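import Pool.Agent.X316.EC.Img

/-! Elliptic curves in the plane, regular maps, and the involutions. -/

set_option autoImplicit false

open Topology Set

namespace Pool.Agent.X316.EC

open Pool.Agent.Y193.FG

/-- the projective plane cubic `Y² Z = (X - e₀ Z) (X - e₁ Z) (X - e₂ Z)`; it is an elliptic curve if
the `e i` are distinct -/
def Ell (e : Fin 3 → ℂ) : Set (CP 2) :=
  {P | ∀ (v : Fin 3 → ℂ) (hv : v ≠ 0), CP.mk v hv = P → v 1 ^ 2 * v 2 = ∏ i, (v 0 - e i * v 2)}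

/-- the map `φ : S → P^n`, `S ⊆ P^m`, is regular: there are finitely many tuples of homogeneous
polynomials of the same degree, such that at each point of `S` some tuple does not vanish, and the
nonvanishing tuples are homogeneous coordinates of `φ` -/
def IsRegularP {m n : ℕ} (S : Set (CP m)) (φ : S → CP n) : Prop :=
  ∃ (s : ℕ) (d : Fin s → ℕ) (f : Fin s → Fin (n + 1) → MvPolynomial (Fin (m + 1)) ℂ),
    (∀ a i, (f a i).IsHomogeneous (d a)) ∧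
    ∀ (v : Fin (m + 1) → ℂ) (hv : v ≠ 0) (hS : CP.mk v hv ∈ S),
      (∃ a, (fun i => MvPolynomial.eval v (f a i)) ≠ 0) ∧
      ∀ a (h : (fun i => MvPolynomial.eval v (f a i)) ≠ 0), φ ⟨CP.mk v hv, hS⟩ = CP.mk _ h

section

variable {e : Fin 3 → ℂ}

theorem mem_Ell {v : Fin 3 → ℂ} {hv : v ≠ 0} : CP.mk v hv ∈ Ell e ↔ cF e v = 0 := by
  have h3 : ∀ v : Fin 3 → ℂ, (v 1 ^ 2 * v 2 = ∏ i, (v 0 - e i * v 2)) ↔ cF e v = 0 := by
    intro v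
    rw [Fin.prod_univ_three, ← sub_eq_zero]
    rfl
  constructor
  · intro h
    exact (h3 v).mp (h v hv rfl)
  · intro h w hw hwv
    obtain ⟨c, hc, rfl⟩ := mk_eq_mk.mp hwv
    rw [h3, cF_smul, h, mul_zero]

variable (hd : ∀ i j, i ≠ j → e i ≠ e j)

/-- the point `(e 0, 0)` is on the curve -/
theorem h20 : (0 : ℂ) ^ 2 = (e 0 - e 0) * (e 0 - e 1) * (e 0 - e 2) := by ring

include hd in
theorem exists_kap : ∃ κ : Ell e → Ell e, ∀ (v : Fin 3 → ℂ) (hv : v ≠ 0)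
    (h : CP.mk v hv ∈ Ell e), (κ ⟨CP.mk v hv, h⟩).1 =
      CP.mk (TT3 e v (e 0) 0) (T_ne hd hv (mem_Ell.mp h) h20) := by
  have hex : ∀ P : Ell e, ∃ Q : Ell e, ∀ (v : Fin 3 → ℂ) (hv : v ≠ 0) (hP : CP.mk v hv = P.1),
      Q.1 = CP.mk (TT3 e v (e 0) 0) (T_ne hd hv (mem_Ell.mp (hP ▸ P.2)) h20) := by
    rintro ⟨P, hPE⟩
    obtain ⟨w, hw, rfl⟩ := mk_surj P
    refine ⟨⟨CP.mk (TT3 e w (e 0) 0) (T_ne hd hw (mem_Ell.mp hPE) h20),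
      mem_Ell.mpr (cF_T (mem_Ell.mp hPE) h20)⟩, fun v hv hP => ?_⟩
    obtain ⟨c, hc, rfl⟩ := mk_eq_mk.mp hP
    obtain ⟨d, hd0, hd1⟩ := T_smul (e := e) hc w (e 0) 0
    exact (mk_eq_mk.mpr ⟨d, hd0, hd1⟩).symm
  choose κ hκ using hex
  exact ⟨κ, fun v hv h => hκ ⟨CP.mk v hv, h⟩ v hv rfl⟩

theorem O_ne : (![0, 1, 0] : Fin 3 → ℂ) ≠ 0 := fun h => by simpa using congrFun h 1

theorem T_ne0 (x y : ℂ) : (![x, y, 1] : Fin 3 → ℂ) ≠ 0 := fun h => by simpa using congrFun h 2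

theorem O_mem : CP.mk ![0, 1, 0] O_ne ∈ Ell e := by
  rw [mem_Ell]
  simp [cF]

include hd in
/-- the involution -/
theorem kap_kap {κ : Ell e → Ell e} (hκ : ∀ (v : Fin 3 → ℂ) (hv : v ≠ 0)
    (h : CP.mk v hv ∈ Ell e), (κ ⟨CP.mk v hv, h⟩).1 =
      CP.mk (TT3 e v (e 0) 0) (T_ne hd hv (mem_Ell.mp h) h20)) (P : Ell e) : κ (κ P) = P := by
  obtain ⟨P, hPE⟩ := P
  obtain ⟨w, hw, rfl⟩ := mk_surj P
  have h1 : κ ⟨CP.mk w hw, hPE⟩ = ⟨CP.mk (TT3 e w (e 0) 0) (T_ne hd hw (mem_Ell.mp hPE) h20),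
      mem_Ell.mpr (cF_T (mem_Ell.mp hPE) h20)⟩ := Subtype.ext (hκ w hw hPE)
  rw [h1]
  apply Subtype.ext
  rw [hκ]
  obtain ⟨c, hc, h2⟩ := T_T hd hw (mem_Ell.mp hPE)
  exact mk_eq_mk.mpr ⟨c, hc, h2⟩

include hd in
/-- the involution exchanges the point at infinity and `(e 0, 0)` -/
theorem kap_O {κ : Ell e → Ell e} (hκ : ∀ (v : Fin 3 → ℂ) (hv : v ≠ 0)
    (h : CP.mk v hv ∈ Ell e), (κ ⟨CP.mk v hv, h⟩).1 =
      CP.mk (TT3 e v (e 0) 0) (T_ne hd hv (mem_Ell.mp h) h20)) :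
    (κ ⟨_, O_mem⟩).1 = CP.mk ![e 0, 0, 1] (T_ne0 _ _) := by
  rw [hκ]
  have hO : G1 e ![0, 1, 0] (e 0) 0 = (-1 : ℂ) • ![e 0, 0, 1] := by
    apply vec_ext <;> simp [G1, ca, cb]
  refine mk_eq_mk.mpr ⟨-1, by norm_num, ?_⟩
  rw [T_G1, hO]
  rw [hO]
  exact smul_ne_zero (by norm_num) (T_ne0 _ _)

end

end Pool.Agent.X316.EC
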