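import Pool.Agent.Y193.FG.Alg
import Pool.Agent.Y193.FG.Chain

/-! Conditions which hold at all the points of the curves `y² = g(w)` are algebraic. -/

set_option autoImplicit false

open Set

namespace Pool.Agent.X316.EC

open Pool.Agent.Y193.FG

section

variable {J T : Type} (g : (J → ℂ) → ℂ)

/-- modulo `y² = g`, the function `H` is `P + y Q` with polynomial functions `P`, `Q` -/
def NF (H : (J → ℂ) → ℂ → ℂ) : Prop :=
  ∃ P Q : (J → ℂ) → ℂ, PolyF P ∧ PolyF Q ∧ ∀ w y, y ^ 2 = g w → H w y = P w + y * Q w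

variable {g}

theorem NF.of {F : (J → ℂ) → ℂ} (hF : PolyF F) : NF g (fun w _ => F w) :=
  ⟨F, fun _ => 0, hF, PolyF.const 0, fun w y _ => by ring⟩

theorem NF.y : NF g (fun _ y => y) :=
  ⟨fun _ => 0, fun _ => 1, PolyF.const 0, PolyF.const 1, fun w y _ => by ring⟩

theorem NF.add {H H' : (J → ℂ) → ℂ → ℂ} (h : NF g H) (h' : NF g H') :
    NF g (fun w y => H w y + H' w y) := by
  obtain ⟨P, Q, hP, hQ, hH⟩ := h
  obtain ⟨P', Q', hP', hQ', hH'⟩ := h'
  exact ⟨_, _, hP.add hP', hQ.add hQ', fun w y hy => by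
    beta_reduce
    rw [hH w y hy, hH' w y hy]
    ring⟩

theorem NF.sub {H H' : (J → ℂ) → ℂ → ℂ} (h : NF g H) (h' : NF g H') :
    NF g (fun w y => H w y - H' w y) := by
  obtain ⟨P, Q, hP, hQ, hH⟩ := h
  obtain ⟨P', Q', hP', hQ', hH'⟩ := h'
  exact ⟨_, _, hP.sub hP', hQ.sub hQ', fun w y hy => by
    beta_reduce
    rw [hH w y hy, hH' w y hy]
    ring⟩

theorem NF.mul (hg : PolyF g) {H H' : (J → ℂ) → ℂ → ℂ} (h : NF g H) (h' : NF g H') :
    NF g (fun w y => H w y * H' w y) := by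
  obtain ⟨P, Q, hP, hQ, hH⟩ := h
  obtain ⟨P', Q', hP', hQ', hH'⟩ := h'
  refine ⟨_, _, (hP.mul hP').add (hg.mul (hQ.mul hQ')), (hP.mul hQ').add (hQ.mul hP'),
    fun w y hy => ?_⟩
  beta_reduce
  rw [hH w y hy, hH' w y hy]
  linear_combination Q w * Q' w * hy

theorem NF.pow (hg : PolyF g) {H : (J → ℂ) → ℂ → ℂ} (h : NF g H) (n : ℕ) :
    NF g (fun w y => H w y ^ n) := by
  induction n with
  | zero => simpa using NF.of (g := g) (PolyF.const 1)
  | succ n ih => simpa only [pow_succ] using ih.mul hg h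

theorem NF.sum {ι : Type} (s : Finset ι) {H : ι → (J → ℂ) → ℂ → ℂ} (h : ∀ i, NF g (H i)) :
    NF g (fun w y => ∑ i ∈ s, H i w y) := by
  classical
  induction s using Finset.induction_on with
  | empty => simpa using NF.of (g := g) (PolyF.const 0)
  | insert a s ha ih => simpa only [Finset.sum_insert ha] using (h a).add ih

theorem NF.prod (hg : PolyF g) {ι : Type} (s : Finset ι) {H : ι → (J → ℂ) → ℂ → ℂ}
    (h : ∀ i, NF g (H i)) : NF g (fun w y => ∏ i ∈ s, H i w y) := by
  classical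
  induction s using Finset.induction_on with
  | empty => simpa using NF.of (g := g) (PolyF.const 1)
  | insert a s ha ih => simpa only [Finset.prod_insert ha] using (h a).mul hg ih

theorem NF.comp (hg : PolyF g) {H : T → (J → ℂ) → ℂ → ℂ} (h : ∀ i, NF g (H i))
    (G : MvPolynomial T ℂ) : NF g (fun w y => MvPolynomial.eval (fun i => H i w y) G) := by
  induction G using MvPolynomial.induction_on with
  | C a => simpa using NF.of (g := g) (PolyF.const a)
  | add p q hp hq => simpa only [map_add] using hp.add hq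
  | mul_X p i hp => simpa only [map_mul, MvPolynomial.eval_X] using hp.mul hg (h i)

theorem NF.bev (hg : PolyF g) {r d : ℕ} {c : (Fin r → Fin (d + 1)) → (J → ℂ) → ℂ}
    (hc : ∀ α, PolyF (c α)) {z : Fin r → (J → ℂ) → ℂ → ℂ} (hz : ∀ j, NF g (z j)) :
    NF g (fun w y => bev (fun α => c α w) (fun j => z j w y)) := by
  unfold Pool.Agent.Y193.FG.bev
  exact NF.sum _ (fun α => (NF.of (hc α)).mul hg (NF.prod hg _ (fun j => (hz j).pow hg _)))

theorem NF.algSet (hg : PolyF g) {H : (J → ℂ) → ℂ → ℂ} (h : NF g H) :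
    AlgSet {w | ∀ y, y ^ 2 = g w → H w y = 0} := by
  obtain ⟨P, Q, hP, hQ, hH⟩ := h
  have e : {w | ∀ y, y ^ 2 = g w → H w y = 0} = {w | P w = 0} ∩ {w | g w * Q w = 0} := by
    ext w
    constructor
    · intro hw
      obtain ⟨y, hy⟩ := IsAlgClosed.exists_pow_nat_eq (g w) (n := 2) (by norm_num)
      have h1 := hw y hy
      have h2 := hw (-y) (by rw [neg_sq, hy])
      rw [hH _ _ hy] at h1
      rw [hH _ _ (by rw [neg_sq, hy])] at h2
      have h3 : P w = 0 := by linear_combination (h1 + h2) / 2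
      refine ⟨h3, ?_⟩
      show g w * Q w = 0
      rw [h3] at h1
      rw [← hy]
      linear_combination y * h1
    · rintro ⟨h1, h2⟩ y hy
      have h1' : P w = 0 := h1
      have h2' : g w * Q w = 0 := h2
      rw [hH _ _ hy, h1', zero_add]
      rw [← hy] at h2'
      by_cases hy0 : y = 0
      · rw [hy0, zero_mul]
      · rw [(mul_eq_zero.mp h2').resolve_left (pow_ne_zero _ hy0), mul_zero]
  rw [e]
  exact (AlgSet.zero hP).inter (AlgSet.zero (hg.mul hQ))

end

end Pool.Agent.X316.EC
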