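import Pool.Agent.X316.EC.NF
import Pool.Agent.X316.EC.Comm
import Pool.Agent.X325.EC.Fam
import Pool.Agent.X325.HS.FinF

/-! The algebraic set of the maps of bounded degree of elliptic curves to a quasi-projective
variety. -/

set_option autoImplicit false

open Topology Set

namespace Pool.Agent.X316.EC

open Pool.Agent.Y193.FG

abbrev TI (n : ℕ) : Type := Fin (n + 1) × Fin (n + 1)
abbrev E2 (D : ℕ) : Type := Fin 2 → Fin (D + 1)
abbrev E3 (d : ℕ) : Type := Fin 3 → Fin (d + 1)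

/-- the coordinates of the parameters -/
abbrev PJ (n : ℕ) (κ : Type) (D d : ℕ) : Type :=
  Fin 3 ⊕ (Unit ⊕ ((TI n × E2 D) ⊕ (((κ × Fin (n + 1)) × E2 D) ⊕
    ((Fin (n + 1) × E3 d) ⊕ (Fin (n + 1) ⊕ κ)))))

section

variable {n : ℕ} {ι κ : Type} {D d : ℕ}

def pe (w : PJ n κ D d → ℂ) : Fin 3 → ℂ := fun i => w (Sum.inl i)
def pu (w : PJ n κ D d → ℂ) : ℂ := w (Sum.inr (Sum.inl ()))
def pG (w : PJ n κ D d → ℂ) : TI n → E2 D → ℂ := fun b α => w (Sum.inr (Sum.inr (Sum.inl (b, α))))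
def pg (w : PJ n κ D d → ℂ) : κ × Fin (n + 1) → E2 D → ℂ :=
  fun b α => w (Sum.inr (Sum.inr (Sum.inr (Sum.inl (b, α)))))
def ph (w : PJ n κ D d → ℂ) : Fin (n + 1) → E3 d → ℂ :=
  fun b α => w (Sum.inr (Sum.inr (Sum.inr (Sum.inr (Sum.inl (b, α))))))
def pη (w : PJ n κ D d → ℂ) : Fin (n + 1) → ℂ :=
  fun b => w (Sum.inr (Sum.inr (Sum.inr (Sum.inr (Sum.inr (Sum.inl b))))))
def pθ (w : PJ n κ D d → ℂ) : κ → ℂ :=
  fun b => w (Sum.inr (Sum.inr (Sum.inr (Sum.inr (Sum.inr (Sum.inr b))))))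

variable [Fintype κ]

/-- the conditions on the parameters -/
structure OK (p : ι → MvPolynomial (Fin (n + 1)) ℂ) (q : κ → MvPolynomial (Fin (n + 1)) ℂ) (m : ℕ)
    (w : PJ n κ D d → ℂ) : Prop where
  dist : pu w * ((pe w 0 - pe w 1) * (pe w 0 - pe w 2) * (pe w 1 - pe w 2)) = 1
  memP : ∀ x y : ℂ, y ^ 2 = ∏ i, (x - pe w i) → ∀ i,
    MvPolynomial.eval (fun b => bev (pG w b) ![x, y]) (PT p i) = 0
  memQ : ∀ x y : ℂ, y ^ 2 = ∏ i, (x - pe w i) →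
    ∑ j, bev (pg w j) ![x, y] * MvPolynomial.eval (fun b => bev (pG w b) ![x, y]) (QT q j) = 1
  hom : ∀ (s : ℂ) (v : Fin 3 → ℂ) l, bev (ph w l) (s • v) = s ^ m * bev (ph w l) v
  comp : ∀ x y : ℂ, y ^ 2 = ∏ i, (x - pe w i) → ∀ l,
    ∑ k, bev (pG w (l, k)) ![x, y] * bev (ph w k) ![x, y, 1] = bev (ph w l) ![x, y, 1]
  inf : ∑ l, pη w l * bev (ph w l) ![0, 1, 0] = 1
  infP : ∀ i, MvPolynomial.eval (fun l => bev (ph w l) ![0, 1, 0]) (p i) = 0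
  infQ : ∑ j, pθ w j * MvPolynomial.eval (fun l => bev (ph w l) ![0, 1, 0]) (q j) = 1

theorem algSet_OK (p : ι → MvPolynomial (Fin (n + 1)) ℂ) (q : κ → MvPolynomial (Fin (n + 1)) ℂ)
    (m : ℕ) : AlgSet {w : PJ n κ D d → ℂ | OK p q m w} := by
  have hpe : ∀ i, PolyF (fun w : PJ n κ D d → ℂ => pe w i) := fun i => PolyF.coord _
  have hpu : PolyF (fun w : PJ n κ D d → ℂ => pu w) := PolyF.coord _
  have hpG : ∀ b α, PolyF (fun w : PJ n κ D d → ℂ => pG w b α) := fun b α => PolyF.coord _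
  have hpg : ∀ b α, PolyF (fun w : PJ n κ D d → ℂ => pg w b α) := fun b α => PolyF.coord _
  have hph : ∀ b α, PolyF (fun w : PJ n κ D d → ℂ => ph w b α) := fun b α => PolyF.coord _
  have hpη : ∀ b, PolyF (fun w : PJ n κ D d → ℂ => pη w b) := fun b => PolyF.coord _
  have hpθ : ∀ b, PolyF (fun w : PJ n κ D d → ℂ => pθ w b) := fun b => PolyF.coord _
  have hgx : ∀ x : ℂ, PolyF (fun w : PJ n κ D d → ℂ => ∏ i, (x - pe w i)) := fun x =>
    PolyF.prod _ (fun i => (PolyF.const x).sub (hpe i))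
  have hz2 : ∀ (x : ℂ) (j : Fin 2), NF (fun w : PJ n κ D d → ℂ => ∏ i, (x - pe w i))
      (fun _ y => (![x, y] : Fin 2 → ℂ) j) := by
    intro x j
    fin_cases j
    · exact NF.of (PolyF.const x)
    · exact NF.y
  have hz3 : ∀ (x : ℂ) (j : Fin 3), NF (fun w : PJ n κ D d → ℂ => ∏ i, (x - pe w i))
      (fun _ y => (![x, y, 1] : Fin 3 → ℂ) j) := by
    intro x j
    fin_cases j
    · exact NF.of (PolyF.const x)
    · exact NF.y
    · exact NF.of (PolyF.const 1)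
  have hG : ∀ (x : ℂ) b, NF (fun w : PJ n κ D d → ℂ => ∏ i, (x - pe w i))
      (fun w y => bev (pG w b) ![x, y]) := fun x b => NF.bev (hgx x) (hpG b) (hz2 x)
  have hg : ∀ (x : ℂ) b, NF (fun w : PJ n κ D d → ℂ => ∏ i, (x - pe w i))
      (fun w y => bev (pg w b) ![x, y]) := fun x b => NF.bev (hgx x) (hpg b) (hz2 x)
  have hh : ∀ (x : ℂ) b, NF (fun w : PJ n κ D d → ℂ => ∏ i, (x - pe w i))
      (fun w y => bev (ph w b) ![x, y, 1]) := fun x b => NF.bev (hgx x) (hph b) (hz3 x)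
  have hh' : ∀ (v : Fin 3 → ℂ) b, PolyF (fun w : PJ n κ D d → ℂ => bev (ph w b) v) := fun v b =>
    polyF_bev (hph b) (fun j => PolyF.const _)
  have e : {w : PJ n κ D d → ℂ | OK p q m w} =
    ((((((({w | pu w * ((pe w 0 - pe w 1) * (pe w 0 - pe w 2) * (pe w 1 - pe w 2)) - 1 = 0} ∩
    (⋂ x : ℂ, ⋂ i, {w | ∀ y, y ^ 2 = ∏ i, (x - pe w i) →
      MvPolynomial.eval (fun b => bev (pG w b) ![x, y]) (PT p i) = 0})) ∩
    (⋂ x : ℂ, {w | ∀ y, y ^ 2 = ∏ i, (x - pe w i) →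
      ∑ j, bev (pg w j) ![x, y] * MvPolynomial.eval (fun b => bev (pG w b) ![x, y]) (QT q j) - 1
        = 0})) ∩
    (⋂ s : ℂ, ⋂ v : Fin 3 → ℂ, ⋂ l, {w | bev (ph w l) (s • v) - s ^ m * bev (ph w l) v = 0})) ∩
    (⋂ x : ℂ, ⋂ l, {w | ∀ y, y ^ 2 = ∏ i, (x - pe w i) →
      ∑ k, bev (pG w (l, k)) ![x, y] * bev (ph w k) ![x, y, 1] - bev (ph w l) ![x, y, 1] = 0})) ∩
    {w | ∑ l, pη w l * bev (ph w l) ![0, 1, 0] - 1 = 0}) ∩
    (⋂ i, {w | MvPolynomial.eval (fun l => bev (ph w l) ![0, 1, 0]) (p i) = 0})) ∩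
    {w | ∑ j, pθ w j * MvPolynomial.eval (fun l => bev (ph w l) ![0, 1, 0]) (q j) - 1 = 0}) := by
    ext w
    simp only [mem_inter_iff, mem_iInter, mem_ofPred_eq, sub_eq_zero]
    constructor
    · intro h
      exact ⟨⟨⟨⟨⟨⟨⟨h.dist, fun x i y hy => h.memP x y hy i⟩, fun x y hy => h.memQ x y hy⟩,
        fun s v l => h.hom s v l⟩, fun x l y hy => h.comp x y hy l⟩, h.inf⟩, h.infP⟩, h.infQ⟩
    · rintro ⟨⟨⟨⟨⟨⟨⟨h1, h2⟩, h3⟩, h4⟩, h5⟩, h6⟩, h7⟩, h8⟩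
      exact ⟨h1, fun x y hy i => h2 x i y hy, fun x y hy => h3 x y hy, h4,
        fun x y hy l => h5 x l y hy, h6, h7, h8⟩
  rw [e]
  refine ((((((AlgSet.inter ?_ ?_).inter ?_).inter ?_).inter ?_).inter ?_).inter ?_).inter ?_
  · exact AlgSet.zero ((hpu.mul ((((hpe 0).sub (hpe 1)).mul ((hpe 0).sub (hpe 2))).mul
      ((hpe 1).sub (hpe 2)))).sub (PolyF.const 1))
  · exact AlgSet.iInter (fun x => AlgSet.iInter (fun i => NF.algSet (hgx x)
      (NF.comp (hgx x) (fun b => hG x b) _)))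
  · exact AlgSet.iInter (fun x => NF.algSet (hgx x) (NF.sub (NF.sum _ (fun j =>
      (hg x j).mul (hgx x) (NF.comp (hgx x) (fun b => hG x b) _))) (NF.of (PolyF.const 1))))
  · exact AlgSet.iInter (fun s => AlgSet.iInter (fun v => AlgSet.iInter (fun l => AlgSet.zero
      ((hh' _ l).sub ((PolyF.const _).mul (hh' _ l))))))
  · exact AlgSet.iInter (fun x => AlgSet.iInter (fun l => NF.algSet (hgx x) (NF.sub
      (NF.sum _ (fun k => (hG x (l, k)).mul (hgx x) (hh x k))) (hh x l))))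
  · exact AlgSet.zero ((PolyF.sum _ (fun l => (hpη l).mul (hh' _ l))).sub (PolyF.const 1))
  · exact AlgSet.iInter (fun i => AlgSet.zero (PolyF.comp (fun l => hh' _ l) _))
  · exact AlgSet.zero ((PolyF.sum _ (fun j => (hpθ j).mul (PolyF.comp (fun l => hh' _ l) _))).sub
      (PolyF.const 1))

end

end Pool.Agent.X316.EC
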