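import Pool.Agent.X316.EC.Kap

/-! Composition of regular maps of elliptic curves with the involutions. -/

set_option autoImplicit false

open Topology Set MvPolynomial

namespace Pool.Agent.X316.EC

open Pool.Agent.Y193.FG

theorem homog_of {k r : ℕ} {P : MvPolynomial (Fin (r + 1)) ℂ}
    (h : ∀ (c : ℂ) (v : Fin (r + 1) → ℂ), eval (c • v) P = c ^ k * eval v P) :
    P.IsHomogeneous k := by
  classical
  have hz : ∀ j, j ≠ k → homogeneousComponent j P = 0 := by
    intro j hj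
    apply MvPolynomial.funext
    intro v
    let N := P.totalDegree + 1 + k + j
    have hP : ∀ c : ℂ, eval (c • v) P =
        ∑ i ∈ Finset.range (P.totalDegree + 1), c ^ i * eval v (homogeneousComponent i P) := by
      intro c
      conv_lhs => rw [← sum_homogeneousComponent P]
      rw [map_sum]
      exact Finset.sum_congr rfl
        (fun i _ => eval_smul' (homogeneousComponent_isHomogeneous i P) c v)
    have hq : (∑ i ∈ Finset.range (P.totalDegree + 1),
        Polynomial.C (eval v (homogeneousComponent i P)) * Polynomial.X ^ i) -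
        Polynomial.C (eval v P) * Polynomial.X ^ k = 0 := by
      apply Polynomial.funext
      intro c
      have h1 := h c v
      rw [hP] at h1
      simp only [Polynomial.eval_sub, Polynomial.eval_finsetSum, Polynomial.eval_mul,
        Polynomial.eval_C, Polynomial.eval_pow, Polynomial.eval_X, Polynomial.eval_zero]
      rw [sub_eq_zero, mul_comm (eval v P), ← h1]
      exact Finset.sum_congr rfl (fun i _ => mul_comm _ _)
    have h2 := congrArg (fun q => Polynomial.coeff q j) hq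
    simp only [Polynomial.coeff_sub, Polynomial.finsetSum_coeff, Polynomial.coeff_C_mul_X_pow,
      Polynomial.coeff_zero, if_neg hj, sub_zero, Finset.sum_ite_eq, Finset.mem_range] at h2
    split_ifs at h2 with h3
    · rw [h2, map_zero]
    · rw [homogeneousComponent_eq_zero _ _ (by omega), map_zero]
  have hPk : homogeneousComponent k P = P := by
    conv_rhs => rw [← sum_homogeneousComponent P]
    by_cases hk : k ∈ Finset.range (P.totalDegree + 1)
    · rw [Finset.sum_eq_single k (fun j _ hj => hz j hj) (fun h => absurd hk h)]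
    · rw [Finset.mem_range, not_lt] at hk
      rw [homogeneousComponent_eq_zero _ _ (by omega)]
      refine (Finset.sum_eq_zero (fun j hj => hz j ?_)).symm
      rw [Finset.mem_range] at hj
      omega
  rw [← hPk]
  exact homogeneousComponent_isHomogeneous k P

section

variable {e : Fin 3 → ℂ} (x y : ℂ)

theorem polyF_ca : PolyF (fun v : Fin 3 → ℂ => ca e v x y) :=
  ⟨(C (-3) * X 0 ^ 2 + C (2 * s1 e) * X 0 * X 2 - C (s2 e) * X 2 ^ 2) * C x +
    C 2 * X 1 * X 2 * C y + (X 1 ^ 2 + C (s1 e) * X 0 ^ 2 - C (2 * s2 e) * X 0 * X 2 +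
      C (3 * s3 e) * X 2 ^ 2), fun v => by
    simp only [ca, map_add, map_sub, map_mul, map_pow, eval_C, eval_X]⟩

theorem polyF_cb : PolyF (fun v : Fin 3 → ℂ => cb e v x y) :=
  ⟨C (-3 * x ^ 2 + 2 * s1 e * x - s2 e) * X 0 + C (2 * y) * X 1 +
    C (y ^ 2 + s1 e * x ^ 2 - 2 * s2 e * x + 3 * s3 e) * X 2, fun v => by
    simp only [cb, map_add, map_mul, eval_C, eval_X]⟩

theorem polyF_G1 (i : Fin 3) : PolyF (fun v : Fin 3 → ℂ => G1 e v x y i) := by
  fin_cases i
  · exact ((polyF_cb x y).mul (PolyF.coord 0)).sub ((polyF_ca x y).mul (PolyF.const x))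
  · exact ((polyF_cb x y).mul (PolyF.coord 1)).sub ((polyF_ca x y).mul (PolyF.const y))
  · exact ((polyF_cb x y).mul (PolyF.coord 2)).sub (polyF_ca x y)

theorem polyF_cD : PolyF (fun v : Fin 3 → ℂ => cD v y) :=
  ⟨X 2 * (X 1 + C y * X 2), fun v => by
    simp only [cD, map_add, map_mul, eval_C, eval_X]⟩

theorem polyF_cN : PolyF (fun v : Fin 3 → ℂ => cN e v x) :=
  ⟨X 0 ^ 2 + X 0 * C x * X 2 + C (x ^ 2) * X 2 ^ 2 - C (s1 e) * (X 0 + C x * X 2) * X 2 +
    C (s2 e) * X 2 ^ 2, fun v => by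
    simp only [cN, map_add, map_sub, map_mul, map_pow, eval_C, eval_X]⟩

theorem polyF_G2 (i : Fin 3) : PolyF (fun v : Fin 3 → ℂ => G2 e v x y i) := by
  have hD := polyF_cD y
  have hN := polyF_cN (e := e) x
  have h0 : PolyF (fun v : Fin 3 → ℂ => v 0) := PolyF.coord 0
  have h1 : PolyF (fun v : Fin 3 → ℂ => v 1) := PolyF.coord 1
  have h2 : PolyF (fun v : Fin 3 → ℂ => v 2) := PolyF.coord 2
  fin_cases i
  · exact hD.mul ((h2.mul (hN.pow 2)).add (((((PolyF.const (s1 e)).mul h2).sub h0).sub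
      ((PolyF.const x).mul h2)).mul (hD.pow 2)))
  · exact ((hD.pow 3).mul h1).add (hN.mul ((h2.mul (hN.pow 2)).add
      (((((PolyF.const (s1 e)).mul h2).sub ((PolyF.const 2).mul h0)).sub
      ((PolyF.const x).mul h2)).mul (hD.pow 2))))
  · exact h2.mul (hD.pow 3)

/-- a family of homogeneous polynomials indexed by a finite type gives a regular map -/
theorem regularP_of {m n : ℕ} {S : Set (CP m)} {φ : S → CP n} {A : Type} [Fintype A] (d : A → ℕ)
    (f : A → Fin (n + 1) → MvPolynomial (Fin (m + 1)) ℂ) (h1 : ∀ a i, (f a i).IsHomogeneous (d a))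
    (h2 : ∀ (v : Fin (m + 1) → ℂ) (hv : v ≠ 0) (hS : CP.mk v hv ∈ S),
      (∃ a, (fun i => eval v (f a i)) ≠ 0) ∧
      ∀ a (h : (fun i => eval v (f a i)) ≠ 0), φ ⟨CP.mk v hv, hS⟩ = CP.mk _ h) :
    IsRegularP S φ := by
  classical
  let σ := Fintype.equivFin A
  refine ⟨Fintype.card A, fun a => d (σ.symm a), fun a => f (σ.symm a), fun a i => h1 _ i,
    fun v hv hS => ⟨?_, fun a h => (h2 v hv hS).2 _ h⟩⟩
  obtain ⟨a, ha⟩ := (h2 v hv hS).1
  refine ⟨σ a, ?_⟩
  show (fun i => eval v (f (σ.symm (σ a)) i)) ≠ 0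
  rw [Equiv.symm_apply_apply]
  exact ha

variable (hd : ∀ i j, i ≠ j → e i ≠ e j)

theorem regular_kap {κ : Ell e → Ell e} (hκ : ∀ (v : Fin 3 → ℂ) (hv : v ≠ 0)
    (h : CP.mk v hv ∈ Ell e), (κ ⟨CP.mk v hv, h⟩).1 =
      CP.mk (TT3 e v (e 0) 0) (T_ne hd hv (mem_Ell.mp h) h20)) {n : ℕ} {φ : Ell e → CP n}
    (hφ : IsRegularP (Ell e) φ) : IsRegularP (Ell e) (fun P => φ (κ P)) := by
  classical
  obtain ⟨s, d, f, hf, hφ⟩ := hφ
  choose P1 hP1 using (fun i => polyF_G1 (e := e) (e 0) 0 i)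
  choose P2 hP2 using (fun i => polyF_G2 (e := e) (e 0) 0 i)
  have hev1 : ∀ v : Fin 3 → ℂ, (fun i => eval v (P1 i)) = G1 e v (e 0) 0 := fun v =>
    funext (fun i => (hP1 i v).symm)
  have hev2 : ∀ v : Fin 3 → ℂ, (fun i => eval v (P2 i)) = G2 e v (e 0) 0 := fun v =>
    funext (fun i => (hP2 i v).symm)
  have hh1 : ∀ i, (P1 i).IsHomogeneous 2 := fun i => homog_of (fun c v => by
    rw [← hP1 i, ← hP1 i]
    exact congrFun (G1_smul c v (e 0) 0) i)
  have hh2 : ∀ i, (P2 i).IsHomogeneous 7 := fun i => homog_of (fun c v => by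
    rw [← hP2 i, ← hP2 i]
    exact congrFun (G2_smul c v (e 0) 0) i)
  have hev : ∀ (P : Fin 3 → MvPolynomial (Fin 3) ℂ) (v : Fin 3 → ℂ) (G : MvPolynomial (Fin 3) ℂ),
      eval v (aeval P G) = eval (fun i => eval v (P i)) G := by
    intro P v G
    exact MvPolynomial.eval₂Hom_bind₁ _ _ _ _
  -- the value of `φ` at the image
  have hval : ∀ (v : Fin 3 → ℂ) (hv : v ≠ 0) (hS : CP.mk v hv ∈ Ell e) (u : Fin 3 → ℂ)
      (hu : u ≠ 0), CP.mk u hu = (κ ⟨CP.mk v hv, hS⟩).1 → ∀ a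
      (h : (fun i => eval u (f a i)) ≠ 0), φ (κ ⟨CP.mk v hv, hS⟩) = CP.mk _ h := by
    intro v hv hS u hu huv a h
    have h1 : κ ⟨CP.mk v hv, hS⟩ = ⟨CP.mk u hu, huv ▸ (κ ⟨CP.mk v hv, hS⟩).2⟩ :=
      Subtype.ext huv.symm
    rw [h1]
    exact (hφ u hu _).2 a h
  have hex : ∀ (v : Fin 3 → ℂ) (hv : v ≠ 0) (hS : CP.mk v hv ∈ Ell e) (u : Fin 3 → ℂ)
      (hu : u ≠ 0), CP.mk u hu = (κ ⟨CP.mk v hv, hS⟩).1 →
      ∃ a, (fun i => eval u (f a i)) ≠ 0 := by
    intro v hv hS u hu huv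
    exact (hφ u hu (huv ▸ (κ ⟨CP.mk v hv, hS⟩).2)).1
  have hG1 : ∀ (v : Fin 3 → ℂ) (hv : v ≠ 0) (hS : CP.mk v hv ∈ Ell e)
      (h : G1 e v (e 0) 0 ≠ 0), CP.mk _ h = (κ ⟨CP.mk v hv, hS⟩).1 := by
    intro v hv hS h
    rw [hκ]
    exact mk_eq_mk.mpr ⟨1, one_ne_zero, by rw [T_G1 h, one_smul]⟩
  have hG2 : ∀ (v : Fin 3 → ℂ) (hv : v ≠ 0) (hS : CP.mk v hv ∈ Ell e)
      (h : G2 e v (e 0) 0 ≠ 0), CP.mk _ h = (κ ⟨CP.mk v hv, hS⟩).1 := by
    intro v hv hS h
    rw [hκ]
    obtain ⟨c, hc, h2⟩ := T_G2 (mem_Ell.mp hS) h20 h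
    exact mk_eq_mk.mpr ⟨c, hc, h2⟩
  -- a tuple of positive degree vanishes at zero; tuples of degree zero are constant
  have hne0 : ∀ (v : Fin 3 → ℂ) (hv : v ≠ 0) (hS : CP.mk v hv ∈ Ell e) (u : Fin 3 → ℂ) (a : Fin s)
      (h : (fun i => eval u (f a i)) ≠ 0), (u ≠ 0 → ∃ hu : u ≠ 0,
        CP.mk u hu = (κ ⟨CP.mk v hv, hS⟩).1) → φ (κ ⟨CP.mk v hv, hS⟩) = CP.mk _ h := by
    intro v hv hS u a h hu
    by_cases hu0 : u = 0
    · subst hu0
      obtain ⟨w, hw, hwκ⟩ := mk_surj (κ ⟨CP.mk v hv, hS⟩).1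
      have hda : d a = 0 := by
        by_contra hda
        apply h
        funext i
        have h3 := eval_smul' (hf a i) 0 (0 : Fin 3 → ℂ)
        rw [zero_pow hda, zero_mul, smul_zero] at h3
        exact h3
      have h4 : (fun i => eval w (f a i)) = fun i => eval (0 : Fin 3 → ℂ) (f a i) := by
        funext i
        have h3 := eval_smul' (hf a i) 0 w
        rw [hda, pow_zero, one_mul, zero_smul] at h3
        exact h3.symm
      have h5 : (fun i => eval w (f a i)) ≠ 0 := by rw [h4]; exact h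
      rw [hval v hv hS w hw hwκ a h5]
      exact mk_eq_mk.mpr ⟨1, one_ne_zero, by rw [h4, one_smul]⟩
    · obtain ⟨hu1, hu2⟩ := hu hu0
      exact hval v hv hS u hu1 hu2 a h
  refine regularP_of (A := Fin s ⊕ Fin s) (Sum.elim (fun a => 2 * d a) (fun a => 7 * d a))
    (Sum.elim (fun a i => aeval P1 (f a i)) (fun a i => aeval P2 (f a i))) ?_ ?_
  · rintro (a | a) i
    · exact (hf a i).aeval P1 hh1
    · exact (hf a i).aeval P2 hh2
  · intro v hv hS
    have e1 : ∀ a, (fun i => eval v (aeval P1 (f a i))) =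
        fun i => eval (G1 e v (e 0) 0) (f a i) := fun a => funext fun i => by
      rw [hev, hev1]
    have e2 : ∀ a, (fun i => eval v (aeval P2 (f a i))) =
        fun i => eval (G2 e v (e 0) 0) (f a i) := fun a => funext fun i => by
      rw [hev, hev2]
    constructor
    · by_cases h : G1 e v (e 0) 0 = 0
      · have h2 := cover hd hv (mem_Ell.mp hS) h20 h
        obtain ⟨a, ha⟩ := hex v hv hS _ h2 (hG2 v hv hS h2)
        exact ⟨Sum.inr a, by
          show (fun i => eval v (aeval P2 (f a i))) ≠ 0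
          rw [e2]
          exact ha⟩
      · obtain ⟨a, ha⟩ := hex v hv hS _ h (hG1 v hv hS h)
        exact ⟨Sum.inl a, by
          show (fun i => eval v (aeval P1 (f a i))) ≠ 0
          rw [e1]
          exact ha⟩
    · rintro (a | a) h
      · have h' : (fun i => eval (G1 e v (e 0) 0) (f a i)) ≠ 0 := by
          rw [← e1]
          exact h
        rw [hne0 v hv hS _ a h' (fun h1 => ⟨h1, hG1 v hv hS h1⟩)]
        exact mk_eq_mk.mpr ⟨1, one_ne_zero, by rw [one_smul]; exact (e1 a).symm⟩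
      · have h' : (fun i => eval (G2 e v (e 0) 0) (f a i)) ≠ 0 := by
          rw [← e2]
          exact h
        rw [hne0 v hv hS _ a h' (fun h1 => ⟨h1, hG2 v hv hS h1⟩)]
        exact mk_eq_mk.mpr ⟨1, one_ne_zero, by rw [one_smul]; exact (e2 a).symm⟩

end

end Pool.Agent.X316.EC
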