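import Pool.Agent.X316.EC.Par

/-! The test families of maps of elliptic curves. -/

set_option autoImplicit false

open Topology Set

namespace Pool.Agent.X316.EC

open Pool.Agent.Y193.FG Pool.Agent.X325.HS Pool.Agent.X325.EC

section

variable {n : ℕ} {ι κ : Type} [Fintype κ] {D d m : ℕ}
  {p : ι → MvPolynomial (Fin (n + 1)) ℂ} {q : κ → MvPolynomial (Fin (n + 1)) ℂ}

/-- the enumeration of the coordinates -/
noncomputable def sg (n : ℕ) (κ : Type) [Fintype κ] (D d : ℕ) :
    PJ n κ D d ≃ Fin (Fintype.card (PJ n κ D d)) := Fintype.equivFin _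

/-- the number of the parameters -/
noncomputable abbrev na (n : ℕ) (κ : Type) [Fintype κ] (D d : ℕ) : ℕ := Fintype.card (PJ n κ D d)

/-- the set of the parameters -/
def WS (p : ι → MvPolynomial (Fin (n + 1)) ℂ) (q : κ → MvPolynomial (Fin (n + 1)) ℂ) (D d m : ℕ) :
    Set (Fin (na n κ D d) → ℂ) := {w | OK p q m (fun j => w (sg n κ D d j))}

/-- the branch points -/
noncomputable def eS (n : ℕ) (κ : Type) [Fintype κ] (D d : ℕ) :
    Fin 3 → MvPolynomial (Fin (na n κ D d)) ℂ := fun i => MvPolynomial.X (sg n κ D d (Sum.inl i))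

/-- the family -/
def YS (p : ι → MvPolynomial (Fin (n + 1)) ℂ) (q : κ → MvPolynomial (Fin (n + 1)) ℂ) (D d m : ℕ) :
    Set (Fin (na n κ D d + 2) → ℂ) := CubY (WS p q D d m) (eS n κ D d)

/-- the parameters of a point of the family -/
noncomputable def wS (n : ℕ) (κ : Type) [Fintype κ] (D d : ℕ)
    (y : Fin (na n κ D d + 2) → ℂ) : PJ n κ D d → ℂ :=
  fun j => y (Fin.castAdd 2 (sg n κ D d j))

theorem mem_YS {y : Fin (na n κ D d + 2) → ℂ} : y ∈ YS p q D d m ↔ OK p q m (wS n κ D d y) ∧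
    y (Fin.natAdd _ 1) ^ 2 = ∏ i, (y (Fin.natAdd _ 0) - pe (wS n κ D d y) i) := by
  have h : ∀ i, MvPolynomial.eval (fun j => y (Fin.castAdd 2 j)) (eS n κ D d i) =
      pe (wS n κ D d y) i := fun i => MvPolynomial.eval_X _
  unfold YS CubY WS
  simp only [mem_ofPred_eq, h]
  rfl

theorem dist_of {e : Fin 3 → ℂ} {u : ℂ} (h : u * ((e 0 - e 1) * (e 0 - e 2) * (e 1 - e 2)) = 1) :
    ∀ i j, i ≠ j → e i ≠ e j := by
  intro i j hij he
  have h1 : (e 0 - e 1) * (e 0 - e 2) * (e 1 - e 2) ≠ 0 := right_ne_zero_of_mul_eq_one h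
  apply h1
  fin_cases i <;> fin_cases j <;> simp at hij he ⊢ <;> simp [he]

theorem algSet_WS : AlgSet (WS p q D d m) :=
  (algSet_OK p q m).preimage (fun _ => PolyF.coord _)

theorem algSet_YS : AlgSet (YS p q D d m) := by
  have e : YS p q D d m = {y | (fun j => y (Fin.castAdd 2 j)) ∈ WS p q D d m} ∩
      {y | y (Fin.natAdd _ 1) ^ 2 - ∏ i, (y (Fin.natAdd _ 0) -
        y (Fin.castAdd 2 (sg n κ D d (Sum.inl i)))) = 0} := by
    ext y
    rw [mem_YS]
    simp only [mem_inter_iff, mem_ofPred_eq, sub_eq_zero]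
    rfl
  rw [e]
  refine AlgSet.inter (algSet_WS.preimage (fun j => PolyF.coord _)) (AlgSet.zero ?_)
  exact ((PolyF.coord _).pow 2).sub (PolyF.prod _ (fun i => (PolyF.coord _).sub (PolyF.coord _)))

theorem dist_WS : ∀ w ∈ WS p q D d m, ∀ i j, i ≠ j →
    MvPolynomial.eval w (eS n κ D d i) ≠ MvPolynomial.eval w (eS n κ D d j) := by
  intro w hw i j hij
  have h : ∀ i, MvPolynomial.eval w (eS n κ D d i) = pe (fun j => w (sg n κ D d j)) i :=
    fun i => MvPolynomial.eval_X _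
  rw [h, h]
  exact dist_of hw.dist i j hij

theorem family_YS : (∀ y ∈ YS p q D d m, IsPathConnected (Fib (YS p q D d m) (CubPi _) y)) ∧
    HasTransport (YS p q D d m) (CubPi _) :=
  cubic_family (WS p q D d m) (eS n κ D d) dist_WS

/-- the matrix of a point of the family -/
noncomputable def MS (y : Fin (na n κ D d + 2) → ℂ) : TI n → ℂ :=
  fun b => bev (pG (wS n κ D d y) b) ![y (Fin.natAdd _ 0), y (Fin.natAdd _ 1)]

theorem polyF_MS (b : TI n) : PolyF (fun y : Fin (na n κ D d + 2) → ℂ => MS y b) := by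
  refine polyF_bev (fun α => PolyF.coord _) (y := fun j y =>
    ![y (Fin.natAdd (na n κ D d) 0), y (Fin.natAdd (na n κ D d) 1)] j) (fun j => ?_)
  fin_cases j
  · exact PolyF.coord _
  · exact PolyF.coord _

theorem MS_mem {y : Fin (na n κ D d + 2) → ℂ} (hy : y ∈ YS p q D d m) :
    MS y ∈ QA (PT p) (QT q) := by
  obtain ⟨h1, h2⟩ := mem_YS.mp hy
  exact mem_QA_of (g := fun j => bev (pg (wS n κ D d y) j) ![y (Fin.natAdd _ 0), y (Fin.natAdd _ 1)])
    (h1.memP _ _ h2) (h1.memQ _ _ h2)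

/-- the map of the family -/
noncomputable def phS (ρ : C(QA (PT p) (QT q), QP p q)) : C(YS p q D d m, QP p q) :=
  ρ.comp ⟨fun y => ⟨MS y.1, MS_mem y.2⟩, Continuous.subtype_mk (continuous_pi (fun b =>
    (polyF_MS b).continuous.comp continuous_subtype_val)) _⟩

variable (hp : ∀ i, ∃ d, (p i).IsHomogeneous d) (hq : ∀ j, ∃ d, (q j).IsHomogeneous d)
  {ρ : C(QA (PT p) (QT q), QP p q)}
  (hρ : ∀ (v η : Fin (n + 1) → ℂ) (hv : v ≠ 0) (h : outer v η ∈ QA (PT p) (QT q)),
        ∑ i, v i * η i = 1 → (ρ ⟨outer v η, h⟩).1 = CP.mk v hv)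

include hp hq hρ in
theorem rho_col {M : TI n → ℂ} (hM : M ∈ QA (PT p) (QT q)) {x : Fin (n + 1) → ℂ} (hx : x ≠ 0)
    (h : ∀ l, ∑ k, M (l, k) * x k = x l) : (ρ ⟨M, hM⟩).1 = CP.mk x hx := by
  obtain ⟨v, η, hv, h1, h2, rfl⟩ := exists_outer hp hq hM
  rw [hρ v η hv hM h2]
  have h3 : x = (∑ k, η k * x k) • v := by
    funext l
    rw [← h l]
    simp only [outer, Pi.smul_apply, smul_eq_mul]
    rw [Finset.sum_mul]
    refine Finset.sum_congr rfl (fun k _ => ?_)
    ring
  have hc : ∑ k, η k * x k ≠ 0 := by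
    intro h0
    rw [h0, zero_smul] at h3
    exact hx h3
  exact (mk_eq_mk.mpr ⟨_, hc, h3⟩).symm

include hp hq hρ in
theorem regular_phS : IsRegularMap (YS p q D d m) (fun y => (phS (m := m) ρ y).1) := by
  choose F hF using (fun b : TI n => polyF_MS (n := n) (κ := κ) (D := D) (d := d) b)
  refine ⟨n + 1, fun l i => F (i, l), fun y => ?_⟩
  have hcol : ∀ l, (fun i => MvPolynomial.eval y.1 (F (i, l))) = fun i => MS y.1 (i, l) :=
    fun l => funext (fun i => (hF (i, l) y.1).symm)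
  have hM := MS_mem y.2
  obtain ⟨v, η, hv, h1, h2, h3⟩ := exists_outer hp hq hM
  have h4 : (phS (m := m) ρ y).1 = CP.mk v hv := by
    have h5 : (phS (m := m) ρ y) = ρ ⟨outer v η, by rw [← h3]; exact hM⟩ :=
      congrArg ρ (Subtype.ext h3)
    rw [h5]
    exact hρ v η hv _ h2
  constructor
  · by_contra hcon
    push Not at hcon
    have h5 : ∑ i, MS y.1 (i, i) = 1 := by
      rw [h3]
      exact h2
    rw [Finset.sum_eq_zero (fun i _ => ?_)] at h5
    · exact zero_ne_one h5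
    · exact (hF (i, i) y.1).trans (congrFun (hcon i) i)
  · intro l h
    refine h4.trans ?_
    have h5 : (fun i => MvPolynomial.eval y.1 (F (i, l))) = η l • v := by
      rw [hcol, h3]
      funext i
      show v i * η l = η l * v i
      ring
    have hη : η l ≠ 0 := by
      intro h0
      rw [h0, zero_smul] at h5
      exact h h5
    exact ((mk_eq_mk (hv := h) (hw := hv)).mpr ⟨_, hη, h5⟩).symm

include hp hq hρ in
theorem isTest_YS : IsTestFamily (YS p q D d m) (CubPi _) (phS (m := m) ρ) :=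
  ⟨algSet_YS, regular_phS hp hq hρ, family_YS.1, family_YS.2⟩

end

end Pool.Agent.X316.EC
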